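import Mathlib

/-!
# Maker-Breaker domination games: definitions
-/

namespace Q299.MBD

variable {V : Type} [Fintype V] [DecidableEq V]

/-- `D` is a dominating set of `G`. -/
def IsDominating (G : SimpleGraph V) (D : Finset V) : Prop := ∀ v, v ∉ D → ∃ w ∈ D, G.Adj v w

/-- The domination number. -/
noncomputable def domNumber (G : SimpleGraph V) : ℕ :=
  sInf {m | ∃ D : Finset V, D.card = m ∧ IsDominating G D}

/-- `DomFirst G b t A B`: in the `b`-biased game, with `A` claimed by Dominator and `B` by Staller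
and Dominator to move, Dominator can force within `t` further rounds that the set of her vertices
contains a dominating set. Dominator claims up to `b` vertices per turn, Staller up to `1`. -/
def DomFirst (G : SimpleGraph V) (b : ℕ) : ℕ → Finset V → Finset V → Prop
  | 0, A, _ => IsDominating G A
  | t + 1, A, B => IsDominating G A ∨ ∃ X : Finset V, Disjoint X (A ∪ B) ∧ X.card ≤ b ∧
      ∀ Y : Finset V, Disjoint Y (A ∪ X ∪ B) → Y.card ≤ 1 → DomFirst G b t (A ∪ X) (B ∪ Y)

/-- The same with Staller to move. -/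
def StaFirst (G : SimpleGraph V) (b : ℕ) : ℕ → Finset V → Finset V → Prop
  | 0, A, _ => IsDominating G A
  | t + 1, A, B => IsDominating G A ∨ ∀ Y : Finset V, Disjoint Y (A ∪ B) → Y.card ≤ 1 →
      ∃ X : Finset V, Disjoint X (A ∪ (B ∪ Y)) ∧ X.card ≤ b ∧ StaFirst G b t (A ∪ X) (B ∪ Y)

/-- `γ_MB(G, b)`: the least number of rounds in which Dominator can force a win moving first
(`⊤` if she cannot). -/
noncomputable def gMB (G : SimpleGraph V) (b : ℕ) : ℕ∞ :=
  ⨅ (t : ℕ) (_ : DomFirst G b t ∅ ∅), (t : ℕ∞)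

/-- `γ'_MB(G, b)`: the same when Staller moves first. -/
noncomputable def gMB' (G : SimpleGraph V) (b : ℕ) : ℕ∞ :=
  ⨅ (t : ℕ) (_ : StaFirst G b t ∅ ∅), (t : ℕ∞)

open Classical in
/-- Probability of a property of the binomial random graph `G(n, p)`. -/
noncomputable def gnpProb (n : ℕ) (p : ℝ) (A : SimpleGraph (Fin n) → Prop) : ℝ :=
  ∑ G : SimpleGraph (Fin n), if A G then
    p ^ G.edgeSet.ncard * (1 - p) ^ (n.choose 2 - G.edgeSet.ncard) else 0

end Q299.MBD
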