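import Pool.Agent.Q299.MBD.Trans

/-!
# Limits
-/

set_option linter.unusedSectionVars false

namespace Q299.MBD

open Finset Filter Topology

open scoped Classical

open Pool.Agent.W166.Gnp Q299.Dep

/-- `4 ^ (-k)` -/
noncomputable def ep (k : ℕ) : ℝ := (1 / 4) ^ k

lemma ep_pos (k : ℕ) : 0 < ep k := by unfold ep; positivity

lemma ep_le {k : ℕ} (hk : 1 ≤ k) : ep k ≤ 1 / 4 := by
  unfold ep
  calc (1 / 4 : ℝ) ^ k ≤ (1 / 4) ^ 1 := pow_le_pow_of_le_one (by norm_num) (by norm_num) hk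
    _ = _ := pow_one _

lemma ep_mul (k : ℕ) : ep k * 4 ^ k = 1 := by
  unfold ep
  rw [← mul_pow]
  norm_num

/-- number of vertices -/
def nn (k : ℕ) : ℕ := k * (k * 4 ^ k)

lemma nn_cast (k : ℕ) : ((nn k : ℕ) : ℝ) = (k : ℝ) ^ 2 * 4 ^ k := by
  unfold nn
  push_cast
  ring

lemma ep_nn (k : ℕ) : ep k * (nn k : ℝ) = (k : ℝ) ^ 2 := by
  rw [nn_cast]
  calc ep k * ((k : ℝ) ^ 2 * 4 ^ k) = (k : ℝ) ^ 2 * (ep k * 4 ^ k) := by ring
    _ = _ := by rw [ep_mul, mul_one]

lemma le_nn {k : ℕ} (hk : 1 ≤ k) : 4 * k ≤ nn k := by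
  unfold nn
  have h1 : 4 ^ 1 ≤ 4 ^ k := Nat.pow_le_pow_right (by norm_num) hk
  have h2 : 1 * 4 ≤ k * 4 ^ k := Nat.mul_le_mul hk (by simpa using h1)
  calc 4 * k = k * (1 * 4) := by ring
    _ ≤ _ := Nat.mul_le_mul_left k h2

/-- constant of the second moment -/
noncomputable def cc (k : ℕ) : ℝ := Real.exp (6 * ((k : ℝ) ^ 2 * ep k)) * ((1 - ep k) ^ (2 * k))⁻¹

theorem ratio {k j : ℕ} (hk : 1 ≤ k) (hj : j ≤ k) :
    (1 - (1 - 3 / 4 : ℝ) ^ k - (1 - 3 / 4) ^ k + (1 - 3 / 4) ^ (2 * k - j)) ^ (nn k - (2 * k - j)) ≤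
      ((1 - ep k) ^ (nn k - k)) ^ 2 * (cc k * Real.exp k ^ j) := by
  set ε := ep k with hε
  have hε0 : 0 < ε := ep_pos k
  have hε4 : ε ≤ 1 / 4 := ep_le hk
  have hkr : (1 : ℝ) ≤ k := by exact_mod_cast hk
  have hjr : (j : ℝ) ≤ k := by exact_mod_cast hj
  have hj0 : (0 : ℝ) ≤ j := Nat.cast_nonneg _
  have e1 : (1 - 3 / 4 : ℝ) ^ k = ε := by rw [hε]; unfold ep; norm_num
  have e2 : (1 - 3 / 4 : ℝ) ^ (2 * k - j) = ε ^ 2 * 4 ^ j := by
    have h1 : (1 - 3 / 4 : ℝ) ^ (2 * k - j) * (1 / 4) ^ j = ε ^ 2 := by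
      rw [show (1 - 3 / 4 : ℝ) = 1 / 4 by norm_num, ← pow_add, Nat.sub_add_cancel (by omega), hε]
      unfold ep
      rw [← pow_mul, mul_comm]
    rw [← h1, mul_assoc, ← mul_pow]
    norm_num
  rw [e1, e2]
  set b := 1 - ε with hb
  have hb0 : 0 < b := by linarith
  have hb1 : b ≤ 1 := by linarith
  have hF : 1 - ε - ε + ε ^ 2 * 4 ^ j ≤ b ^ 2 * Real.exp (ε ^ 2 * 4 ^ j / b ^ 2) := by
    have h1 := Real.add_one_le_exp (ε ^ 2 * 4 ^ j / b ^ 2)
    have h2 : b ^ 2 * (ε ^ 2 * 4 ^ j / b ^ 2 + 1) ≤ b ^ 2 * Real.exp (ε ^ 2 * 4 ^ j / b ^ 2) :=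
      mul_le_mul_of_nonneg_left h1 (sq_nonneg b)
    have h3 : b ^ 2 * (ε ^ 2 * 4 ^ j / b ^ 2 + 1) = ε ^ 2 * 4 ^ j + b ^ 2 := by
      field_simp
    have h4 : b ^ 2 = 1 - ε - ε + ε ^ 2 := by rw [hb]; ring
    nlinarith [sq_nonneg ε]
  have hF0 : 0 ≤ 1 - ε - ε + ε ^ 2 * 4 ^ j := by
    have : 0 ≤ ε ^ 2 * 4 ^ j := by positivity
    linarith
  set N := nn k - (2 * k - j) with hN
  have hnk := le_nn hk
  have hbN : b ^ (2 * N) ≤ (b ^ (nn k - k)) ^ 2 * (b ^ (2 * k))⁻¹ := by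
    rw [← div_eq_mul_inv, le_div_iff₀ (by positivity), ← pow_add, ← pow_mul]
    apply pow_le_pow_of_le_one hb0.le hb1
    omega
  have hexp : (N : ℝ) * (ε ^ 2 * 4 ^ j / b ^ 2) ≤ j * k + 6 * ((k : ℝ) ^ 2 * ε) := by
    have h1 : (N : ℝ) ≤ (nn k : ℝ) := by exact_mod_cast Nat.sub_le _ _
    have h2 : (nn k : ℝ) * (ε ^ 2 * 4 ^ j) = (k : ℝ) ^ 2 * ε * 4 ^ j := by
      have := ep_nn k
      calc (nn k : ℝ) * (ε ^ 2 * 4 ^ j) = (ε * (nn k : ℝ)) * (ε * 4 ^ j) := by ring
        _ = (k : ℝ) ^ 2 * ε * 4 ^ j := by rw [this]; ring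
    have h3 : (k : ℝ) ^ 2 * ε * 4 ^ j ≤ j * k + (k : ℝ) ^ 2 * ε := by
      rcases Nat.eq_zero_or_pos j with h0 | h0
      · rw [h0]
        simp
      · have h4 : ((k * 4 ^ j : ℕ) : ℝ) ≤ ((j * 4 ^ k : ℕ) : ℝ) := by exact_mod_cast four_pow_le h0 hj
        push_cast at h4
        have h5 : (k : ℝ) ^ 2 * ε * 4 ^ j = (k * ε) * (k * 4 ^ j) := by ring
        have h6 : (k * ε) * (k * 4 ^ j) ≤ (k * ε) * (j * 4 ^ k) :=
          mul_le_mul_of_nonneg_left h4 (by positivity)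
        have h7 : (k * ε) * (j * 4 ^ k) = j * k * (ε * 4 ^ k) := by ring
        rw [h5]
        refine h6.trans ?_
        rw [h7, ep_mul, mul_one]
        have : 0 ≤ (k : ℝ) ^ 2 * ε := by positivity
        linarith
    have h8 : 1 / b ^ 2 ≤ 1 + 4 * ε := by
      rw [div_le_iff₀ (by positivity), hb]
      nlinarith [mul_pos hε0 hε0, mul_pos (mul_pos hε0 hε0) hε0]
    calc (N : ℝ) * (ε ^ 2 * 4 ^ j / b ^ 2) ≤ (nn k : ℝ) * (ε ^ 2 * 4 ^ j / b ^ 2) :=
          mul_le_mul_of_nonneg_right h1 (by positivity)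
      _ = ((nn k : ℝ) * (ε ^ 2 * 4 ^ j)) * (1 / b ^ 2) := by ring
      _ ≤ (j * k + (k : ℝ) ^ 2 * ε) * (1 + 4 * ε) := by
          rw [h2]
          exact mul_le_mul h3 h8 (by positivity) (by positivity)
      _ ≤ _ := by
          have h9 : (j : ℝ) * k ≤ (k : ℝ) ^ 2 := by nlinarith
          have h10 : (j : ℝ) * k * ε ≤ (k : ℝ) ^ 2 * ε := mul_le_mul_of_nonneg_right h9 hε0.le
          have h11 : (k : ℝ) ^ 2 * ε * ε ≤ (k : ℝ) ^ 2 * ε * (1 / 4) :=
            mul_le_mul_of_nonneg_left hε4 (by positivity)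
          nlinarith
  calc (1 - ε - ε + ε ^ 2 * 4 ^ j) ^ N ≤ (b ^ 2 * Real.exp (ε ^ 2 * 4 ^ j / b ^ 2)) ^ N :=
        pow_le_pow_left₀ hF0 hF N
    _ = b ^ (2 * N) * Real.exp ((N : ℝ) * (ε ^ 2 * 4 ^ j / b ^ 2)) := by
        rw [mul_pow, ← pow_mul, Real.exp_nat_mul]
    _ ≤ ((b ^ (nn k - k)) ^ 2 * (b ^ (2 * k))⁻¹) * Real.exp (j * k + 6 * ((k : ℝ) ^ 2 * ε)) :=
        mul_le_mul hbN (Real.exp_le_exp.2 hexp) (Real.exp_pos _).le (by positivity)
    _ = _ := by
        rw [Real.exp_add, Real.exp_nat_mul]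
        unfold cc
        ring

/-- transversals as sets of vertices -/
def trn {k : ℕ} (φ : Fin k → Fin (k * 4 ^ k)) : Finset (Fin (nn k)) := tr φ

lemma card_trn {k : ℕ} (φ : Fin k → Fin (k * 4 ^ k)) : (trn φ).card = k := card_tr φ

lemma card_trn_union {k : ℕ} (φ ψ : Fin k → Fin (k * 4 ^ k)) :
    (trn φ ∪ trn ψ).card = 2 * k - (univ.filter (fun i => φ i = ψ i)).card := card_tr_union φ ψ

/-- no dominating transversal -/
theorem Pr_no_dom {k : ℕ} (hk : 1 ≤ k) :
    Pr (allE (nn k)) (3 / 4) (fun S => ¬ ∃ D : Finset (Fin (nn k)), D.card = k ∧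
      IsDominating (gr S) D) ≤ cc k * Real.exp ((Real.exp 1 / 4) ^ k) - 1 := by
  have hm1 : 1 ≤ k * 4 ^ k := Nat.mul_le_mul hk (Nat.one_le_pow _ _ (by norm_num))
  set m := k * 4 ^ k with hm
  have hmr : (1 : ℝ) ≤ (m : ℝ) := by exact_mod_cast hm1
  have hε0 := ep_pos k
  have hε4 := ep_le hk
  have h34 : (0 : ℝ) ≤ 3 / 4 := by norm_num
  have h34' : (3 / 4 : ℝ) ≤ 1 := by norm_num
  have hb0 : 0 < 1 - ep k := by linarith
  have e1 : (1 - 3 / 4 : ℝ) ^ k = ep k := by unfold ep; norm_num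
  have hcc : 0 < cc k := by unfold cc; positivity
  have hmain := second_moment (n := nn k) (p := 3 / 4) h34 h34' (ι := Fin k → Fin m)
    (fun φ => trn φ) ((1 - ep k) ^ (nn k - k))
    (cc k * (((m : ℝ) - 1 + Real.exp k) / m) ^ k) (by positivity)
    (by
      rw [Fintype.card_fun, Fintype.card_fin, Fintype.card_fin]
      exact Nat.pow_pos hm1)
    (by
      intro φ
      have := Ex_dom (n := nn k) (trn φ) (3 / 4)
      rw [card_trn, e1] at this
      exact this)
    (by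
      have h1 : ∀ φ ψ : Fin k → Fin m, Ex (allE (nn k)) (3 / 4)
          (fun S => domI (trn φ) S * domI (trn ψ) S) ≤
          ((1 - ep k) ^ (nn k - k)) ^ 2 * (cc k * Real.exp k ^
            (univ.filter (fun i => φ i = ψ i)).card) := by
        intro φ ψ
        have h2 := Ex_dom_two (n := nn k) h34 h34' (trn φ) (trn ψ)
        rw [card_trn, card_trn, card_trn_union] at h2
        refine h2.trans (ratio hk ?_)
        exact (card_filter_le _ _).trans (by simp)
      calc _ ≤ ∑ φ : Fin k → Fin m, ∑ ψ : Fin k → Fin m,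
            ((1 - ep k) ^ (nn k - k)) ^ 2 * (cc k * Real.exp k ^
            (univ.filter (fun i => φ i = ψ i)).card) :=
            sum_le_sum fun φ _ => sum_le_sum fun ψ _ => h1 φ ψ
        _ = ∑ _φ : Fin k → Fin m, ((1 - ep k) ^ (nn k - k)) ^ 2 * (cc k *
            ((m : ℝ) - 1 + Real.exp k) ^ k) := by
            apply sum_congr rfl
            intro φ _
            rw [← mul_sum, ← mul_sum, sum_pow_agree hm1]
        _ = _ := by
            rw [sum_const, card_univ, nsmul_eq_mul, Fintype.card_fun, Fintype.card_fin,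
              Fintype.card_fin, div_pow]
            push_cast
            field_simp)
  have h5 : (((m : ℝ) - 1 + Real.exp k) / m) ^ k ≤ Real.exp ((Real.exp 1 / 4) ^ k) := by
    have h6 : ((m : ℝ) - 1 + Real.exp k) / m ≤ Real.exp (Real.exp k / m) := by
      have h7 := Real.add_one_le_exp (Real.exp k / m)
      refine le_trans ?_ h7
      rw [div_le_iff₀ (by linarith)]
      have : (Real.exp k / m + 1) * m = Real.exp k + m := by field_simp
      rw [this]
      linarith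
    calc (((m : ℝ) - 1 + Real.exp k) / m) ^ k ≤ Real.exp (Real.exp k / m) ^ k := by
          apply pow_le_pow_left₀ _ h6
          have := Real.exp_pos (k : ℝ)
          apply div_nonneg <;> linarith
      _ = Real.exp (k * (Real.exp k / m)) := by rw [← Real.exp_nat_mul]
      _ = _ := by
          congr 1
          rw [hm]
          push_cast
          have hk0 : (k : ℝ) ≠ 0 := by
            have : (1 : ℝ) ≤ k := by exact_mod_cast hk
            linarith
          rw [div_pow, ← Real.exp_nat_mul, mul_one]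
          field_simp
  refine le_trans (Pr_mono h34 h34' ?_) (hmain.trans ?_)
  · intro S _ hS φ hφ
    exact hS ⟨_, card_trn φ, hφ⟩
  · have := mul_le_mul_of_nonneg_left h5 hcc.le
    linarith

/-- twins -/
theorem Pr_twins {k : ℕ} (hk : 1 ≤ k) :
    Pr (allE (nn k)) (3 / 4) (fun S => Twins (gr S) k) ≤
      (nn k : ℝ) ^ (k + 1) * (1 - 7 / 4 * ep k) ^ (nn k - (k + 1)) := by
  have h34 : (0 : ℝ) ≤ 3 / 4 := by norm_num
  have h34' : (3 / 4 : ℝ) ≤ 1 := by norm_num
  have hε0 := ep_pos k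
  have hε4 := ep_le hk
  set T : Finset (Finset (Fin (nn k)) × Fin (nn k) × Fin (nn k)) :=
    ((powersetCard (k - 1) univ) ×ˢ (univ ×ˢ univ)).filter
      (fun t => t.2.1 ∉ t.1 ∧ t.2.2 ∉ t.1 ∧ t.2.1 ≠ t.2.2) with hT
  have h1 : Pr (allE (nn k)) (3 / 4) (fun S => Twins (gr S) k) ≤
      Pr (allE (nn k)) (3 / 4) (fun S => ∃ t ∈ T, IsDominating (gr S) (insert t.2.1 t.1) ∧
        IsDominating (gr S) (insert t.2.2 t.1)) := by
    apply Pr_mono h34 h34'
    rintro S _ ⟨A, v, v', hA, hv, hv', hne, hd, hd'⟩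
    refine ⟨(A, v, v'), ?_, hd, hd'⟩
    rw [hT, mem_filter, mem_product, mem_powersetCard]
    have hA' : A.card = k - 1 := by omega
    exact ⟨⟨⟨subset_univ _, hA'⟩, by simp⟩, hv, hv', hne⟩
  refine h1.trans ((Pr_exists_le h34 h34' T _).trans ?_)
  have h2 : ∀ t ∈ T, Pr (allE (nn k)) (3 / 4) (fun S => IsDominating (gr S) (insert t.2.1 t.1) ∧
        IsDominating (gr S) (insert t.2.2 t.1)) ≤ (1 - 7 / 4 * ep k) ^ (nn k - (k + 1)) := by
    intro t ht
    rw [hT, mem_filter, mem_product, mem_powersetCard] at ht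
    obtain ⟨⟨⟨_, hc⟩, _⟩, h3, h4, h5⟩ := ht
    refine (Pr_dom_two h34 h34' _ _).trans (le_of_eq ?_)
    have c1 : (insert t.2.1 t.1).card = k := by rw [card_insert_of_notMem h3]; omega
    have c2 : (insert t.2.2 t.1).card = k := by rw [card_insert_of_notMem h4]; omega
    have c3 : (insert t.2.1 t.1 ∪ insert t.2.2 t.1).card = k + 1 := by
      have : insert t.2.1 t.1 ∪ insert t.2.2 t.1 = insert t.2.1 (insert t.2.2 t.1) := by
        ext x
        simp only [mem_union, mem_insert]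
        tauto
      rw [this, card_insert_of_notMem, c2]
      rw [mem_insert]
      push Not
      exact ⟨h5, h3⟩
    rw [c1, c2, c3]
    congr 1
    rw [show (1 - 3 / 4 : ℝ) = 1 / 4 by norm_num, pow_succ]
    unfold ep
    ring
  refine (sum_le_sum h2).trans ?_
  rw [sum_const, nsmul_eq_mul]
  apply mul_le_mul_of_nonneg_right _ (by
    apply pow_nonneg
    linarith)
  have h3 : T.card ≤ (nn k) ^ (k + 1) := by
    refine (card_filter_le _ _).trans ?_
    rw [card_product, card_product, card_powersetCard, card_univ, Fintype.card_fin]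
    have h4 : (nn k).choose (k - 1) ≤ (nn k) ^ (k - 1) := Nat.choose_le_pow _ _
    calc (nn k).choose (k - 1) * (nn k * nn k) ≤ (nn k) ^ (k - 1) * (nn k * nn k) :=
          Nat.mul_le_mul_right _ h4
      _ = (nn k) ^ (k - 1 + 2) := by rw [pow_add]; ring
      _ = _ := by congr 1; omega
  exact_mod_cast h3

/-! ### Limits -/

lemma pow_mul_ep_tendsto (r : ℕ) : Tendsto (fun k : ℕ => (k : ℝ) ^ r * ep k) atTop (𝓝 0) := by
  have := tendsto_pow_const_mul_const_pow_of_lt_one r (r := (1 / 4 : ℝ)) (by norm_num) (by norm_num)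
  exact this

lemma no_dom_tendsto : Tendsto (fun k => cc k * Real.exp ((Real.exp 1 / 4) ^ k) - 1) atTop (𝓝 0) := by
  have h1 : Tendsto (fun k : ℕ => Real.exp (6 * ((k : ℝ) ^ 2 * ep k))) atTop (𝓝 1) := by
    have := (Real.continuous_exp.tendsto _).comp ((pow_mul_ep_tendsto 2).const_mul 6)
    simp only [mul_zero, Real.exp_zero] at this
    exact this
  have h2 : Tendsto (fun k : ℕ => (1 - ep k) ^ (2 * k)) atTop (𝓝 1) := by
    -- Bernoulli
    have h3 : Tendsto (fun k : ℕ => 1 - 2 * ((k : ℝ) ^ 1 * ep k)) atTop (𝓝 1) := by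
      have := ((pow_mul_ep_tendsto 1).const_mul 2).const_sub 1
      simpa using this
    refine tendsto_of_tendsto_of_tendsto_of_le_of_le' h3 tendsto_const_nhds ?_ ?_
    · filter_upwards [eventually_ge_atTop 1] with k hk
      have h4 := ep_le hk
      have h5 := ep_pos k
      have h6 := one_add_mul_le_pow (a := -ep k) (by linarith) (2 * k)
      push_cast at h6
      have h7 : (1 : ℝ) + -ep k = 1 - ep k := by ring
      rw [h7] at h6
      linarith
    · filter_upwards [eventually_ge_atTop 1] with k hk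
      have h4 := ep_le hk
      have h5 := ep_pos k
      exact pow_le_one₀ (by linarith) (by linarith)
  have h3 : Tendsto (fun k : ℕ => Real.exp ((Real.exp 1 / 4) ^ k)) atTop (𝓝 1) := by
    have h4 : Real.exp 1 / 4 < 1 := by
      have := Real.exp_one_lt_d9
      linarith
    have h5 : Tendsto (fun k : ℕ => (Real.exp 1 / 4) ^ k) atTop (𝓝 0) :=
      tendsto_pow_atTop_nhds_zero_of_lt_one (by positivity) h4
    have := (Real.continuous_exp.tendsto _).comp h5
    simp only [Real.exp_zero] at this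
    exact this
  have h4 := (((h1.mul (h2.inv₀ one_ne_zero)).mul h3)).sub_const 1
  simpa [cc] using h4

lemma twins_tendsto : Tendsto (fun k : ℕ => (nn k : ℝ) ^ (k + 1) *
    (1 - 7 / 4 * ep k) ^ (nn k - (k + 1))) atTop (𝓝 0) := by
  -- exponent
  have hexp : Tendsto (fun k : ℕ => (k : ℝ) ^ 2 * (-(363 / 1000) + 2 * (k : ℝ)⁻¹ +
      8 * (√(k : ℝ))⁻¹ + 2 * ((k : ℝ)⁻¹ ^ 2))) atTop atBot := by
    have h1 : Tendsto (fun k : ℕ => (k : ℝ)⁻¹) atTop (𝓝 0) := tendsto_inv_atTop_nhds_zero_nat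
    have h2 : Tendsto (fun k : ℕ => (√(k : ℝ))⁻¹) atTop (𝓝 0) :=
      tendsto_inv_atTop_zero.comp (Real.tendsto_sqrt_atTop.comp tendsto_natCast_atTop_atTop)
    have h3 : Tendsto (fun k : ℕ => -(363 / 1000) + 2 * (k : ℝ)⁻¹ +
      8 * (√(k : ℝ))⁻¹ + 2 * ((k : ℝ)⁻¹ ^ 2)) atTop (𝓝 (-(363 / 1000) + 2 * 0 + 8 * 0 + 2 * 0 ^ 2)) :=
      (((h1.const_mul 2).const_add _).add (h2.const_mul 8)).add ((h1.pow 2).const_mul 2)
    have h4 : Tendsto (fun k : ℕ => (k : ℝ) ^ 2) atTop atTop :=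
      (tendsto_pow_atTop (by norm_num)).comp tendsto_natCast_atTop_atTop
    exact h4.atTop_mul_neg (by norm_num) h3
  have h0 := Real.tendsto_exp_atBot.comp hexp
  refine tendsto_of_tendsto_of_tendsto_of_le_of_le' tendsto_const_nhds h0 ?_ ?_
  · filter_upwards [eventually_ge_atTop 1] with k hk
    have h4 := ep_le hk
    have h5 := ep_pos k
    exact mul_nonneg (by positivity) (pow_nonneg (by linarith) _)
  · filter_upwards [eventually_ge_atTop 1] with k hk
    have h4 := ep_le hk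
    have h5 := ep_pos k
    have hkr : (1 : ℝ) ≤ k := by exact_mod_cast hk
    have hnn := le_nn hk
    have hnpos : (0 : ℝ) < nn k := by
      have : 0 < nn k := by omega
      exact_mod_cast this
    have e1 : (nn k : ℝ) ^ (k + 1) = Real.exp (((k : ℝ) + 1) * Real.log (nn k)) := by
      rw [← Real.exp_log hnpos, ← Real.exp_nat_mul, Real.log_exp]
      push_cast
      rfl
    have e2 : (1 - 7 / 4 * ep k) ^ (nn k - (k + 1)) ≤
        Real.exp (-(7 / 4 * ((k : ℝ) ^ 2 - 1))) := by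
      calc (1 - 7 / 4 * ep k) ^ (nn k - (k + 1)) ≤ Real.exp (-(7 / 4 * ep k)) ^ (nn k - (k + 1)) := by
            apply pow_le_pow_left₀ (by linarith)
            have := Real.add_one_le_exp (-(7 / 4 * ep k))
            linarith
        _ = Real.exp (((nn k - (k + 1) : ℕ) : ℝ) * (-(7 / 4 * ep k))) := by
            rw [← Real.exp_nat_mul]
        _ ≤ _ := by
            apply Real.exp_le_exp.2
            rw [Nat.cast_sub (by omega)]
            push_cast
            have h6 := ep_nn k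
            have h7 : ep k * ((k : ℝ) + 1) ≤ 1 := by
              have h8 : k + 1 ≤ 4 ^ k := by
                have : k < 4 ^ k := Nat.lt_pow_self (by norm_num)
                omega
              have h9 : ((k : ℝ) + 1) ≤ 4 ^ k := by exact_mod_cast h8
              calc ep k * ((k : ℝ) + 1) ≤ ep k * 4 ^ k := mul_le_mul_of_nonneg_left h9 h5.le
                _ = 1 := ep_mul k
            nlinarith
    rw [e1]
    refine le_trans (mul_le_mul_of_nonneg_left e2 (Real.exp_pos _).le) ?_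
    rw [← Real.exp_add]
    simp only [Function.comp]
    apply Real.exp_le_exp.2
    have hlog : Real.log (nn k) = 2 * Real.log k + k * Real.log 4 := by
      rw [nn_cast, Real.log_mul (by positivity) (by positivity), Real.log_pow, Real.log_pow]
      push_cast
      ring
    have hl4 : Real.log 4 ≤ 1387 / 1000 := by
      have : (4 : ℝ) = 2 ^ 2 := by norm_num
      rw [this, Real.log_pow]
      have := Real.log_two_lt_d9
      push_cast
      linarith
    have hsk : 0 < √(k : ℝ) := Real.sqrt_pos.2 (by linarith)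
    have hsk2 : √(k : ℝ) * √(k : ℝ) = k := Real.mul_self_sqrt (by linarith)
    have hlk : Real.log k ≤ 2 * √(k : ℝ) := by
      have h6 : Real.log k = 2 * Real.log (√(k : ℝ)) := by
        rw [Real.log_sqrt (by linarith)]
        ring
      rw [h6]
      have := Real.log_le_sub_one_of_pos hsk
      linarith
    rw [hlog]
    have hR : (k : ℝ) ^ 2 * (-(363 / 1000) + 2 * (k : ℝ)⁻¹ + 8 * (√(k : ℝ))⁻¹ + 2 * ((k : ℝ)⁻¹ ^ 2)) =
        -(363 / 1000) * (k : ℝ) ^ 2 + 2 * k + 8 * (k * √(k : ℝ)) + 2 := by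
      have h7 : (k : ℝ) * (k : ℝ)⁻¹ = 1 := mul_inv_cancel₀ (by linarith)
      have h8 : (k : ℝ) * (√(k : ℝ))⁻¹ = √(k : ℝ) := by
        nth_rewrite 1 [← hsk2]
        rw [mul_assoc, mul_inv_cancel₀ hsk.ne', mul_one]
      calc _ = -(363 / 1000) * (k : ℝ) ^ 2 + 2 * k * ((k : ℝ) * (k : ℝ)⁻¹) +
            8 * (k * ((k : ℝ) * (√(k : ℝ))⁻¹)) + 2 * (((k : ℝ) * (k : ℝ)⁻¹) ^ 2) := by ring
        _ = _ := by rw [h7, h8]; ring
    rw [hR]
    have h9 : ((k : ℝ) + 1) * (2 * Real.log k) ≤ 8 * (k * √(k : ℝ)) := by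
      have h10 : ((k : ℝ) + 1) ≤ 2 * k := by linarith
      have h11 : 0 ≤ Real.log k := Real.log_nonneg hkr
      calc ((k : ℝ) + 1) * (2 * Real.log k) ≤ (2 * k) * (2 * (2 * √(k : ℝ))) := by
            apply mul_le_mul h10 (by linarith) (by positivity) (by positivity)
        _ = _ := by ring
    have h12 : ((k : ℝ) + 1) * (k * Real.log 4) ≤ ((k : ℝ) + 1) * (k * (1387 / 1000)) := by
      gcongr
    nlinarith

end Q299.MBD
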