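import Pool.Agent.Q299.MBD.Defs

/-!
# If Dominator wins the unbiased game in `γ(G) ≥ 2` rounds, then two dominating sets of size
`γ(G)` share `γ(G) - 1` vertices
-/

set_option linter.unusedSectionVars false

namespace Q299.MBD

open Finset

variable {V : Type} [Fintype V] [DecidableEq V] {G : SimpleGraph V}

/-- `A ∪ {v}` and `A ∪ {v'}` are dominating sets of size `k` with `v ≠ v'` -/
def Twins (G : SimpleGraph V) (k : ℕ) : Prop :=
  ∃ (A : Finset V) (v v' : V), A.card + 1 = k ∧ v ∉ A ∧ v' ∉ A ∧ v ≠ v' ∧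
    IsDominating G (insert v A) ∧ IsDominating G (insert v' A)

lemma IsDominating.mono {A B : Finset V} (h : IsDominating G A) (hAB : A ⊆ B) :
    IsDominating G B := by
  intro v hv
  obtain ⟨w, hw, hvw⟩ := h v (fun hh => hv (hAB hh))
  exact ⟨w, hAB hw, hvw⟩

lemma one_round {γ : ℕ} (hγ : ∀ D : Finset V, IsDominating G D → γ ≤ D.card) {A B : Finset V}
    (hA : A.card + 1 ≤ γ) (h : DomFirst G 1 1 A B) :
    A.card + 1 = γ ∧ ∃ v, v ∉ A ∧ v ∉ B ∧ IsDominating G (insert v A) := by
  rcases h with h | ⟨X, hX, hXc, h⟩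
  · have := hγ A h
    omega
  · have h1 : IsDominating G (A ∪ X) := h ∅ (disjoint_empty_left _) (by simp)
    have h2 := hγ _ h1
    have h3 := card_union_le A X
    have h4 : X.card = 1 := by omega
    obtain ⟨v, rfl⟩ := card_eq_one.1 h4
    rw [disjoint_singleton_left, mem_union] at hX
    push Not at hX
    refine ⟨?_, v, hX.1, hX.2, ?_⟩
    · simp only [card_singleton] at h3
      omega
    · rwa [union_comm, ← insert_eq] at h1

lemma twins_of_game {γ : ℕ} (hγ : ∀ D : Finset V, IsDominating G D → γ ≤ D.card) :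
    ∀ (t : ℕ) (A B : Finset V), A.card + t + 2 ≤ γ → DomFirst G 1 (t + 2) A B → Twins G γ := by
  intro t
  induction t with
  | zero =>
    intro A B hA h
    rcases h with h | ⟨X, hX, hXc, h⟩
    · have := hγ A h
      omega
    · have hcard := card_union_le A X
      have h1 : DomFirst G 1 1 (A ∪ X) (B ∪ ∅) := h ∅ (disjoint_empty_left _) (by simp)
      obtain ⟨e1, v, hv1, hv2, hv3⟩ := one_round hγ (by omega) h1
      have hvB : v ∉ B := fun hh => hv2 (mem_union_left _ hh)
      have h2 : DomFirst G 1 1 (A ∪ X) (B ∪ {v}) := h {v} (by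
        rw [disjoint_singleton_left, mem_union]
        push Not
        exact ⟨hv1, hvB⟩) (by simp)
      obtain ⟨e2, w, hw1, hw2, hw3⟩ := one_round hγ (by omega) h2
      refine ⟨A ∪ X, v, w, e1, hv1, hw1, ?_, hv3, hw3⟩
      rintro rfl
      exact hw2 (mem_union_right _ (mem_singleton_self _))
  | succ t ih =>
    intro A B hA h
    rcases h with h | ⟨X, hX, hXc, h⟩
    · have := hγ A h
      omega
    · have hcard := card_union_le A X
      exact ih (A ∪ X) (B ∪ ∅) (by omega) (h ∅ (disjoint_empty_left _) (by simp))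

lemma domNumber_le {D : Finset V} (h : IsDominating G D) : domNumber G ≤ D.card :=
  Nat.sInf_le ⟨D, rfl, h⟩

lemma exists_min : ∃ D : Finset V, D.card = domNumber G ∧ IsDominating G D := by
  have : (domNumber G) ∈ {m | ∃ D : Finset V, D.card = m ∧ IsDominating G D} := by
    apply Nat.sInf_mem
    exact ⟨_, univ, rfl, fun v hv => absurd (mem_univ v) hv⟩
  exact this

/-- a dominating set of size `k` and no twins of size `k` force `γ(G) = k` -/
lemma domNumber_eq {k : ℕ} (hk : 1 ≤ k) (hV : k + 1 ≤ Fintype.card V)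
    (h1 : ∃ D : Finset V, D.card = k ∧ IsDominating G D) (h2 : ¬ Twins G k) :
    domNumber G = k := by
  obtain ⟨D, hD, hdom⟩ := h1
  have hle : domNumber G ≤ k := hD ▸ domNumber_le hdom
  by_contra hne
  apply h2
  obtain ⟨D0, hD0, hdom0⟩ := exists_min (G := G)
  obtain ⟨A, hA1, hA2⟩ := exists_superset_card_eq (s := D0) (n := k - 1) (by omega) (by omega)
  have hc : 2 ≤ (univ \ A).card := by
    rw [card_sdiff_of_subset (subset_univ _), card_univ]
    omega
  obtain ⟨v, hv, w, hw, hvw⟩ := one_lt_card.1 hc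
  rw [mem_sdiff] at hv hw
  refine ⟨A, v, w, by omega, hv.2, hw.2, hvw, ?_, ?_⟩
  · exact hdom0.mono (hA1.trans (subset_insert _ _))
  · exact hdom0.mono (hA1.trans (subset_insert _ _))

lemma domFirst_of_gMB {b k : ℕ} (h : gMB G b = (k : ℕ∞)) : DomFirst G b k ∅ ∅ := by
  unfold gMB at h
  have h1 : (⨅ (t : ℕ) (_ : DomFirst G b t ∅ ∅), (t : ℕ∞)) ≠ ⊤ := by
    rw [h]; exact ENat.natCast_ne_top k
  -- the infimum of a nonempty set of naturals is attained
  have h2 : (⨅ (t : ℕ) (_ : DomFirst G b t ∅ ∅), (t : ℕ∞)) =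
      sInf ((fun t : ℕ => (t : ℕ∞)) '' {t | DomFirst G b t ∅ ∅}) := by
    rw [sInf_image]
    rfl
  have hne : ((fun t : ℕ => (t : ℕ∞)) '' {t | DomFirst G b t ∅ ∅}).Nonempty := by
    by_contra hcon
    rw [Set.not_nonempty_iff_eq_empty] at hcon
    rw [h2, hcon, sInf_empty] at h1
    exact h1 rfl
  have h3 := csInf_mem hne
  rw [← h2, h] at h3
  obtain ⟨t, ht, hte⟩ := h3
  simp only at hte
  have : t = k := by exact_mod_cast hte
  exact this ▸ ht

theorem gMB_ne {k : ℕ} (hk : 2 ≤ k) (hV : k + 1 ≤ Fintype.card V)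
    (h1 : ∃ D : Finset V, D.card = k ∧ IsDominating G D) (h2 : ¬ Twins G k) :
    domNumber G = k ∧ gMB G 1 ≠ (k : ℕ∞) := by
  have h3 := domNumber_eq (by omega) hV h1 h2
  refine ⟨h3, fun h => h2 ?_⟩
  have h4 := domFirst_of_gMB h
  obtain ⟨t, rfl⟩ : ∃ t, k = t + 2 := ⟨k - 2, by omega⟩
  exact twins_of_game (fun D hD => h3 ▸ domNumber_le hD) t ∅ ∅ (by simp) h4

end Q299.MBD
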