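import Pool.Agent.Q299.MBD.Game
import Pool.Agent.Q299.Dep.Hit
import Pool.Agent.W166.Gnp.Transfer

/-!
# Probability that two given sets dominate
-/

set_option linter.unusedSectionVars false

namespace Q299.MBD

open Finset

open scoped Classical

open Pool.Agent.W166.Gnp Q299.Dep

section Blocks

variable {α : Type} [DecidableEq α]

/-- indicator that `X` is hit -/
noncomputable def hitI (X S : Finset α) : ℝ := if ∃ y ∈ X, y ∈ S then 1 else 0

lemma hitI_nonneg (X S : Finset α) : 0 ≤ hitI X S := by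
  unfold hitI; split_ifs <;> norm_num

lemma hitI_inter {X R : Finset α} (h : X ⊆ R) (S : Finset α) : hitI X (S ∩ R) = hitI X S := by
  unfold hitI
  congr 1
  apply propext
  constructor
  · rintro ⟨y, hy, hy'⟩
    exact ⟨y, hy, (mem_inter.1 hy').1⟩
  · rintro ⟨y, hy, hy'⟩
    exact ⟨y, hy, mem_inter.2 ⟨hy', h hy⟩⟩

/-- indicator that `X` is missed -/
noncomputable def missI (X S : Finset α) : ℝ := if ∀ y ∈ X, y ∉ S then 1 else 0

lemma Ex_miss {R X : Finset α} (hX : X ⊆ R) (p : ℝ) : Ex R p (missI X) = (1 - p) ^ X.card := by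
  rw [← Pr_miss hX p]
  unfold Pr
  apply Ex_congr
  intro S _
  unfold missI
  by_cases h : ∀ y ∈ X, y ∉ S
  · rw [if_pos h, if_pos h]
  · rw [if_neg h, if_neg h]

/-- both of two sets are hit -/
lemma Ex_hit_two {R X Y : Finset α} (hX : X ⊆ R) (hY : Y ⊆ R) (p : ℝ) :
    Ex R p (fun S => hitI X S * hitI Y S) =
      1 - (1 - p) ^ X.card - (1 - p) ^ Y.card + (1 - p) ^ (X ∪ Y).card := by
  have e1 := Ex_miss hX p
  have e2 := Ex_miss hY p
  have e3 := Ex_miss (union_subset hX hY) p
  have e4 : ∀ S, S ⊆ R → hitI X S * hitI Y S =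
      (1 + (-1) * missI X S) + ((-1) * missI Y S + missI (X ∪ Y) S) := by
    intro S _
    unfold hitI missI
    by_cases h1 : ∃ y ∈ X, y ∈ S
    · have h1' : ¬ ∀ y ∈ X, y ∉ S := by push Not; exact h1
      have h3 : ¬ ∀ y ∈ X ∪ Y, y ∉ S := by
        push Not
        obtain ⟨y, hy, hy'⟩ := h1
        exact ⟨y, mem_union_left _ hy, hy'⟩
      by_cases h2 : ∃ y ∈ Y, y ∈ S
      · have h2' : ¬ ∀ y ∈ Y, y ∉ S := by push Not; exact h2
        rw [if_pos h1, if_pos h2, if_neg h1', if_neg h2', if_neg h3]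
        norm_num
      · have h2' : ∀ y ∈ Y, y ∉ S := by push Not at h2; exact h2
        rw [if_pos h1, if_neg h2, if_neg h1', if_pos h2', if_neg h3]
        norm_num
    · have h1' : ∀ y ∈ X, y ∉ S := by push Not at h1; exact h1
      by_cases h2 : ∃ y ∈ Y, y ∈ S
      · have h2' : ¬ ∀ y ∈ Y, y ∉ S := by push Not; exact h2
        have h3 : ¬ ∀ y ∈ X ∪ Y, y ∉ S := by
          push Not
          obtain ⟨y, hy, hy'⟩ := h2
          exact ⟨y, mem_union_right _ hy, hy'⟩
        rw [if_neg h1, if_pos h2, if_pos h1', if_neg h2', if_neg h3]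
        norm_num
      · have h2' : ∀ y ∈ Y, y ∉ S := by push Not at h2; exact h2
        have h3 : ∀ y ∈ X ∪ Y, y ∉ S := by
          intro y hy
          rcases mem_union.1 hy with h | h
          · exact h1' y h
          · exact h2' y h
        rw [if_neg h1, if_neg h2, if_pos h1', if_pos h2', if_pos h3]
        norm_num
  rw [Ex_congr e4, Ex_add, Ex_add, Ex_add, Ex_smul, Ex_smul, Ex_const, e1, e2, e3]
  ring

end Blocks

variable {n : ℕ}

/-- edges from `u` to `D` -/
def st (u : Fin n) (D : Finset (Fin n)) : Finset (Sym2 (Fin n)) := D.image (fun d => s(u, d))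

lemma mem_st {u : Fin n} {D : Finset (Fin n)} {e : Sym2 (Fin n)} :
    e ∈ st u D ↔ ∃ d ∈ D, s(u, d) = e := by
  simp [st]

lemma card_st (u : Fin n) (D : Finset (Fin n)) : (st u D).card = D.card := by
  unfold st
  rw [card_image_of_injective]
  intro d d' h
  simp only [Sym2.eq_iff] at h
  rcases h with h | h
  · exact h.2
  · rw [h.2, h.1]

lemma st_union (u : Fin n) (D D' : Finset (Fin n)) : st u (D ∪ D') = st u D ∪ st u D' := by
  unfold st
  rw [image_union]

lemma st_mono (u : Fin n) {D D' : Finset (Fin n)} (h : D ⊆ D') : st u D ⊆ st u D' :=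
  image_subset_image h

lemma st_subset {u : Fin n} {D : Finset (Fin n)} (hu : u ∉ D) : st u D ⊆ allE n := by
  intro e he
  rw [mem_st] at he
  obtain ⟨d, hd, rfl⟩ := he
  rw [mem_allE]
  rintro rfl
  exact hu hd

lemma st_disj (D : Finset (Fin n)) :
    ((univ \ D : Finset (Fin n)) : Set (Fin n)).PairwiseDisjoint (fun u => st u D) := by
  intro u hu u' hu' hne
  rw [Function.onFun, disjoint_left]
  intro e he he'
  rw [mem_st] at he he'
  obtain ⟨d, hd, rfl⟩ := he
  obtain ⟨d', hd', h⟩ := he'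
  rw [mem_coe, mem_sdiff] at hu hu'
  rw [Sym2.eq_iff] at h
  rcases h with h | h
  · exact hne h.1.symm
  · rw [h.1] at hu'
    exact hu'.2 hd

/-- graph of an edge set -/
abbrev gr (S : Finset (Sym2 (Fin n))) : SimpleGraph (Fin n) :=
  SimpleGraph.fromEdgeSet (S : Set (Sym2 (Fin n)))

lemma dom_iff (S : Finset (Sym2 (Fin n))) (D : Finset (Fin n)) :
    IsDominating (gr S) D ↔ ∀ u ∉ D, ∃ y ∈ st u D, y ∈ S := by
  unfold IsDominating
  constructor
  · intro h u hu
    obtain ⟨w, hw, hadj⟩ := h u hu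
    rw [SimpleGraph.fromEdgeSet_adj] at hadj
    exact ⟨s(u, w), mem_st.2 ⟨w, hw, rfl⟩, hadj.1⟩
  · intro h u hu
    obtain ⟨y, hy, hyS⟩ := h u hu
    rw [mem_st] at hy
    obtain ⟨d, hd, rfl⟩ := hy
    refine ⟨d, hd, ?_⟩
    rw [SimpleGraph.fromEdgeSet_adj]
    refine ⟨hyS, ?_⟩
    rintro rfl
    exact hu hd

/-- indicator that `D` dominates -/
noncomputable def domI (D : Finset (Fin n)) (S : Finset (Sym2 (Fin n))) : ℝ :=
  if IsDominating (gr S) D then 1 else 0

lemma domI_eq (D : Finset (Fin n)) (S : Finset (Sym2 (Fin n))) :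
    domI D S = ∏ u ∈ univ \ D, hitI (st u D) S * hitI (st u D) S := by
  unfold domI
  split_ifs with h
  · rw [dom_iff] at h
    symm
    apply prod_eq_one
    intro u hu
    rw [mem_sdiff] at hu
    unfold hitI
    rw [if_pos (h u hu.2)]
    norm_num
  · rw [dom_iff] at h
    push Not at h
    obtain ⟨u, hu, hy⟩ := h
    symm
    apply prod_eq_zero (mem_sdiff.2 ⟨mem_univ u, hu⟩)
    unfold hitI
    rw [if_neg (by push Not; exact hy)]
    norm_num

lemma domI_mul_le (D D' : Finset (Fin n)) (S : Finset (Sym2 (Fin n))) :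
    domI D S * domI D' S ≤ ∏ u ∈ univ \ (D ∪ D'), hitI (st u D) S * hitI (st u D') S := by
  have h0 : 0 ≤ ∏ u ∈ univ \ (D ∪ D'), hitI (st u D) S * hitI (st u D') S :=
    prod_nonneg fun u _ => mul_nonneg (hitI_nonneg _ _) (hitI_nonneg _ _)
  unfold domI
  split_ifs with h1 h2
  · rw [dom_iff] at h1 h2
    rw [prod_eq_one]
    · norm_num
    intro u hu
    rw [mem_sdiff, mem_union] at hu
    push Not at hu
    unfold hitI
    rw [if_pos (h1 u hu.2.1), if_pos (h2 u hu.2.2)]
    norm_num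
  · simpa using h0
  · simpa using h0
  · simpa using h0

/-- product formula -/
lemma Ex_pair (D D' : Finset (Fin n)) (p : ℝ) :
    Ex (allE n) p (fun S => ∏ u ∈ univ \ (D ∪ D'), hitI (st u D) S * hitI (st u D') S) =
      (1 - (1 - p) ^ D.card - (1 - p) ^ D'.card + (1 - p) ^ (D ∪ D').card) ^
        (n - (D ∪ D').card) := by
  have h1 := Ex_prod (E := allE n) p (univ \ (D ∪ D')) (fun u => st u (D ∪ D'))
    (fun u hu => st_subset (mem_sdiff.1 hu).2) (st_disj (D ∪ D'))
    (fun u S => hitI (st u D) S * hitI (st u D') S)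
  have h2 : ∀ S : Finset (Sym2 (Fin n)), (∏ u ∈ univ \ (D ∪ D'), hitI (st u D) S * hitI (st u D') S) =
      ∏ u ∈ univ \ (D ∪ D'), (fun u S => hitI (st u D) S * hitI (st u D') S) u
        (S ∩ (fun u => st u (D ∪ D')) u) := by
    intro S
    apply prod_congr rfl
    intro u _
    simp only
    rw [hitI_inter (st_mono u subset_union_left), hitI_inter (st_mono u subset_union_right)]
  simp_rw [h2]
  rw [h1]
  have h3 : ∀ u ∈ univ \ (D ∪ D'), Ex (st u (D ∪ D')) p (fun S => hitI (st u D) S * hitI (st u D') S) =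
      1 - (1 - p) ^ D.card - (1 - p) ^ D'.card + (1 - p) ^ (D ∪ D').card := by
    intro u _
    rw [Ex_hit_two (st_mono u subset_union_left) (st_mono u subset_union_right), ← st_union,
      card_st, card_st, card_st]
  rw [prod_congr rfl h3, prod_const, card_sdiff_of_subset (subset_univ _), card_univ,
    Fintype.card_fin]

lemma Ex_dom (D : Finset (Fin n)) (p : ℝ) :
    Ex (allE n) p (domI D) = (1 - (1 - p) ^ D.card) ^ (n - D.card) := by
  have h := Ex_pair D D p
  rw [union_self] at h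
  have h2 : domI D = fun S => ∏ u ∈ univ \ D, hitI (st u D) S * hitI (st u D) S := by
    funext S
    exact domI_eq D S
  rw [h2, h]
  congr 1
  ring

lemma Ex_dom_two {p : ℝ} (h0 : 0 ≤ p) (h1 : p ≤ 1) (D D' : Finset (Fin n)) :
    Ex (allE n) p (fun S => domI D S * domI D' S) ≤
      (1 - (1 - p) ^ D.card - (1 - p) ^ D'.card + (1 - p) ^ (D ∪ D').card) ^
        (n - (D ∪ D').card) := by
  rw [← Ex_pair]
  exact Ex_mono h0 h1 fun S _ => domI_mul_le D D' S

lemma Pr_dom_two {p : ℝ} (h0 : 0 ≤ p) (h1 : p ≤ 1) (D D' : Finset (Fin n)) :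
    Pr (allE n) p (fun S => IsDominating (gr S) D ∧ IsDominating (gr S) D') ≤
      (1 - (1 - p) ^ D.card - (1 - p) ^ D'.card + (1 - p) ^ (D ∪ D').card) ^
        (n - (D ∪ D').card) := by
  refine le_trans (le_of_eq ?_) (Ex_dom_two h0 h1 D D')
  unfold Pr
  apply Ex_congr
  intro S _
  unfold domI
  by_cases h1 : IsDominating (gr S) D <;> by_cases h2 : IsDominating (gr S) D' <;> simp [h1, h2]

/-- second moment method over a finite family of sets of equal size -/
theorem second_moment {p : ℝ} (h0 : 0 ≤ p) (h1 : p ≤ 1) {ι : Type} [Fintype ι]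
    (D : ι → Finset (Fin n)) (P1 B : ℝ) (hP1 : 0 < P1) (hM : 0 < Fintype.card ι)
    (hD : ∀ i, Ex (allE n) p (domI (D i)) = P1)
    (hB : ∑ i, ∑ j, Ex (allE n) p (fun S => domI (D i) S * domI (D j) S) ≤
      ((Fintype.card ι : ℝ) * P1) ^ 2 * B) :
    Pr (allE n) p (fun S => ∀ i, ¬ IsDominating (gr S) (D i)) ≤ B - 1 := by
  set M : ℝ := (Fintype.card ι : ℝ) with hMdef
  have hM0 : 0 < M := by rw [hMdef]; exact_mod_cast hM
  set c : ℝ := 1 / (M * P1) with hc
  have hMP : 0 < M * P1 := mul_pos hM0 hP1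
  have key : ∀ S, S ⊆ allE n → (fun S => (1 - c * ∑ i, domI (D i) S) ^ 2) S =
      (1 + (-(2 * c)) * ∑ i, domI (D i) S) + c ^ 2 * ∑ i, ∑ j, domI (D i) S * domI (D j) S := by
    intro S _
    simp only
    rw [← sum_mul_sum]
    ring
  have e1 : Ex (allE n) p (fun S => (1 - c * ∑ i, domI (D i) S) ^ 2) =
      1 + (-(2 * c)) * (M * P1) + c ^ 2 *
        ∑ i, ∑ j, Ex (allE n) p (fun S => domI (D i) S * domI (D j) S) := by
    rw [Ex_congr key, Ex_add, Ex_add, Ex_smul, Ex_smul, Ex_const]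
    have e2 : Ex (allE n) p (fun S => ∑ i, domI (D i) S) = M * P1 := by
      rw [Ex_sum, sum_congr rfl (fun i _ => hD i), sum_const, card_univ, nsmul_eq_mul]
    have e3 : Ex (allE n) p (fun S => ∑ i, ∑ j, domI (D i) S * domI (D j) S) =
        ∑ i, ∑ j, Ex (allE n) p (fun S => domI (D i) S * domI (D j) S) := by
      rw [Ex_sum]
      apply sum_congr rfl
      intro i _
      rw [Ex_sum]
    rw [e2, e3]
  have e4 : Pr (allE n) p (fun S => ∀ i, ¬ IsDominating (gr S) (D i)) ≤
      Ex (allE n) p (fun S => (1 - c * ∑ i, domI (D i) S) ^ 2) := by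
    apply Pr_le_Ex h0 h1
    · intro S _; positivity
    · intro S _ hS
      have : ∑ i, domI (D i) S = 0 := by
        apply sum_eq_zero
        intro i _
        unfold domI
        rw [if_neg (hS i)]
      rw [this]
      norm_num
  rw [e1] at e4
  have e5 : c ^ 2 * ∑ i, ∑ j, Ex (allE n) p (fun S => domI (D i) S * domI (D j) S) ≤ B := by
    calc _ ≤ c ^ 2 * ((M * P1) ^ 2 * B) := mul_le_mul_of_nonneg_left hB (sq_nonneg c)
      _ = B := by rw [hc]; field_simp
  have e6 : -(2 * c) * (M * P1) = -2 := by rw [hc]; field_simp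
  rw [e6] at e4
  linarith

end Q299.MBD
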