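import Pool.Agent.Q299.MBD.Defs

/-!
# The `(1 : b)` Maker-Breaker domination game: time and size
-/

namespace Q299.MBD

variable {V : Type} [Fintype V] [DecidableEq V]

/-- `Force b Win t A B`: in the `(1 : b)` game, with `A` claimed by Dominator and `B` by Staller and
Dominator to move, Dominator can force within `t` further rounds that the set of her vertices
satisfies `Win`. In each round Dominator claims one unclaimed vertex and then Staller claims at most
`b` unclaimed vertices. -/
def Force (b : ℕ) (Win : Finset V → Prop) : ℕ → Finset V → Finset V → Prop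
  | 0, A, _ => Win A
  | t + 1, A, B => Win A ∨ ∃ x, x ∉ A ∪ B ∧ ∀ Y : Finset V, Disjoint Y (insert x A ∪ B) →
      Y.card ≤ b → Force b Win t (insert x A) (B ∪ Y)

/-- `γ_MB(G, b)`: the least `t` such that Dominator can guarantee that she has claimed a dominating
set within `t` rounds (`⊤` if there is none). -/
noncomputable def timeMB (G : SimpleGraph V) (b : ℕ) : ℕ∞ :=
  ⨅ (t : ℕ) (_ : Force b (fun A => ∃ D ⊆ A, IsDominating G D) t ∅ ∅), (t : ℕ∞)

/-- `s_MB(G, b)`: the least `s` such that Dominator can guarantee that she claims all the vertices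
of some dominating set of size at most `s` (`⊤` if there is none). -/
noncomputable def sizeMB (G : SimpleGraph V) (b : ℕ) : ℕ∞ :=
  ⨅ (s : ℕ) (_ : ∃ t, Force b (fun A => ∃ D ⊆ A, D.card ≤ s ∧ IsDominating G D) t ∅ ∅), (s : ℕ∞)

end Q299.MBD
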