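import Pool.Agent.Q299.MBD.SizeProb

/-!
# Time versus size: conclusion
-/

set_option linter.unusedSectionVars false

namespace Q299.MBD

open Finset Filter Topology

open scoped Classical

open Pool.Agent.W166.Gnp Q299.Dep

/-- number of agreements -/
noncomputable def agr {k m : ℕ} (φ ψ : Fin k → Fin m) : ℕ := (univ.filter (fun i => φ i = ψ i)).card

lemma sum_pairs {α : Type} [DecidableEq α] (J : Finset α) :
    ∑ x ∈ J, ∑ _y ∈ J.erase x, (1 : ℝ) = (J.card : ℝ) * ((J.card : ℝ) - 1) := by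
  have h : ∀ x ∈ J, ∑ _y ∈ J.erase x, (1 : ℝ) = (J.card : ℝ) - 1 := by
    intro x hx
    rw [sum_const, card_erase_of_mem hx, nsmul_eq_mul, mul_one, Nat.cast_sub (card_pos.2 ⟨x, hx⟩)]
    simp
  rw [sum_congr rfl h, sum_const, nsmul_eq_mul]

lemma agr_eq {k m : ℕ} (φ ψ : Fin k → Fin m) : (agr φ ψ : ℝ) * ((agr φ ψ : ℝ) - 1) =
    ∑ i : Fin k, ∑ i' ∈ univ.erase i, (if φ i = ψ i ∧ φ i' = ψ i' then (1 : ℝ) else 0) := by
  unfold agr
  rw [← sum_pairs]
  rw [sum_filter]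
  apply sum_congr rfl
  intro i _
  by_cases h : φ i = ψ i
  · rw [if_pos h]
    have e : (univ.filter (fun i => φ i = ψ i)).erase i = (univ.erase i).filter (fun i' => φ i' = ψ i') := by
      ext l
      simp only [mem_erase, mem_filter, mem_univ, true_and, and_true]
    rw [e, sum_filter]
    apply sum_congr rfl
    intro i' _
    by_cases h' : φ i' = ψ i'
    · rw [if_pos h', if_pos ⟨h, h'⟩]
    · rw [if_neg h', if_neg (fun hh => h' hh.2)]
  · rw [if_neg h]
    symm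
    apply sum_eq_zero
    intro i' _
    rw [if_neg (fun hh => h hh.1)]

/-- weighted number of pairs of dominating transversals -/
noncomputable def SS (k : ℕ) (S : Finset (Sym2 (Fin (n8 k)))) : ℝ :=
  ∑ φ : Fin k → Fin (m8 k), ∑ ψ : Fin k → Fin (m8 k),
    domI (tr8 φ) S * domI (tr8 ψ) S * ((agr φ ψ : ℝ) * ((agr φ ψ : ℝ) - 1))

lemma domI_nonneg {n : ℕ} (D : Finset (Fin n)) (S : Finset (Sym2 (Fin n))) : 0 ≤ domI D S := by
  unfold domI; split_ifs <;> norm_num

lemma agr_nonneg {k m : ℕ} (φ ψ : Fin k → Fin m) : 0 ≤ (agr φ ψ : ℝ) * ((agr φ ψ : ℝ) - 1) := by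
  rw [agr_eq]
  exact sum_nonneg fun _ _ => sum_nonneg fun _ _ => by split_ifs <;> norm_num

lemma SS_nonneg (k : ℕ) (S : Finset (Sym2 (Fin (n8 k)))) : 0 ≤ SS k S :=
  sum_nonneg fun _ _ => sum_nonneg fun _ _ =>
    mul_nonneg (mul_nonneg (domI_nonneg _ _) (domI_nonneg _ _)) (agr_nonneg _ _)

/-- constant -/
noncomputable def cS (k : ℕ) : ℝ := cB k * (((m8 k : ℝ) - 1 + Real.exp (2 * k + 12)) / m8 k) ^ (k - 2)

theorem Ex_SS {k : ℕ} (hk : 3 ≤ k) :
    Ex (allE (n8 k)) (7 / 8) (SS k) ≤ EZ k ^ 2 * ((k : ℝ) / m8 k) ^ 2 * cS k := by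
  have hm1 := m8_pos (k := k) (by omega)
  have hmr : (1 : ℝ) ≤ (m8 k : ℝ) := by exact_mod_cast hm1
  have hε0 := e8_pos k
  have hε8 := e8_le (k := k) (by omega)
  have hb0 : 0 < 1 - e8 k := by linarith
  have hcB : 0 < cB k := by unfold cB; positivity
  have hx : 0 < (m8 k : ℝ) - 1 + Real.exp (2 * k + 12) := by
    have := Real.exp_pos (2 * (k : ℝ) + 12)
    linarith
  have e1 : Ex (allE (n8 k)) (7 / 8) (SS k) = ∑ φ : Fin k → Fin (m8 k), ∑ ψ : Fin k → Fin (m8 k),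
      ((agr φ ψ : ℝ) * ((agr φ ψ : ℝ) - 1)) *
        Ex (allE (n8 k)) (7 / 8) (fun S => domI (tr8 φ) S * domI (tr8 ψ) S) := by
    have : SS k = fun S => ∑ φ : Fin k → Fin (m8 k), ∑ ψ : Fin k → Fin (m8 k),
      ((agr φ ψ : ℝ) * ((agr φ ψ : ℝ) - 1)) * (domI (tr8 φ) S * domI (tr8 ψ) S) := by
      funext S
      unfold SS
      apply sum_congr rfl; intro φ _
      apply sum_congr rfl; intro ψ _
      ring
    rw [this, Ex_sum]
    apply sum_congr rfl
    intro φ _
    rw [Ex_sum]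
    apply sum_congr rfl
    intro ψ _
    rw [Ex_smul]
  rw [e1]
  set P1 := (1 - e8 k) ^ (n8 k - k) with hP1
  have e2 : ∀ φ : Fin k → Fin (m8 k), ∑ ψ : Fin k → Fin (m8 k),
      ((agr φ ψ : ℝ) * ((agr φ ψ : ℝ) - 1)) *
        Ex (allE (n8 k)) (7 / 8) (fun S => domI (tr8 φ) S * domI (tr8 ψ) S) ≤
      (k : ℝ) ^ 2 * (P1 ^ 2 * (cB k * ((m8 k : ℝ) - 1 + Real.exp (2 * k + 12)) ^ (k - 2))) := by
    intro φ
    have e3 : ∀ ψ : Fin k → Fin (m8 k), ((agr φ ψ : ℝ) * ((agr φ ψ : ℝ) - 1)) *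
        Ex (allE (n8 k)) (7 / 8) (fun S => domI (tr8 φ) S * domI (tr8 ψ) S) ≤
        ∑ i : Fin k, ∑ i' ∈ univ.erase i, (P1 ^ 2 * cB k) * (if φ i = ψ i ∧ φ i' = ψ i' then
          Real.exp (2 * k + 12) ^ ((univ.filter (fun i => φ i = ψ i)).card - 2) else 0) := by
      intro ψ
      rw [agr_eq, sum_mul]
      apply sum_le_sum
      intro i _
      rw [sum_mul]
      apply sum_le_sum
      intro i' hi'
      split_ifs with h
      · rw [one_mul, mul_assoc]
        apply Ex_pairB hk φ ψ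
        have : ({i, i'} : Finset (Fin k)) ⊆ univ.filter (fun i => φ i = ψ i) := by
          intro l hl
          rw [mem_insert, mem_singleton] at hl
          rw [mem_filter]
          rcases hl with rfl | rfl
          · exact ⟨mem_univ _, h.1⟩
          · exact ⟨mem_univ _, h.2⟩
        have h2 := card_le_card this
        rwa [card_pair (ne_of_mem_erase hi').symm] at h2
      · rw [zero_mul, mul_zero]
    refine (sum_le_sum fun ψ _ => e3 ψ).trans ?_
    rw [sum_comm]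
    have e4 : ∀ i ∈ (univ : Finset (Fin k)), ∑ ψ : Fin k → Fin (m8 k), ∑ i' ∈ univ.erase i,
        (P1 ^ 2 * cB k) * (if φ i = ψ i ∧ φ i' = ψ i' then
          Real.exp (2 * k + 12) ^ ((univ.filter (fun i => φ i = ψ i)).card - 2) else 0) ≤
        (k : ℝ) * ((P1 ^ 2 * cB k) * ((m8 k : ℝ) - 1 + Real.exp (2 * k + 12)) ^ (k - 2)) := by
      intro i _
      rw [sum_comm]
      have e5 : ∀ i' ∈ univ.erase i, ∑ ψ : Fin k → Fin (m8 k),
          (P1 ^ 2 * cB k) * (if φ i = ψ i ∧ φ i' = ψ i' then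
          Real.exp (2 * k + 12) ^ ((univ.filter (fun i => φ i = ψ i)).card - 2) else 0) =
          (P1 ^ 2 * cB k) * ((m8 k : ℝ) - 1 + Real.exp (2 * k + 12)) ^ (k - 2) := by
        intro i' hi'
        rw [← mul_sum, sum_pow_agree_two hm1 φ _ i i' (ne_of_mem_erase hi').symm]
      rw [sum_congr rfl e5, sum_const, nsmul_eq_mul]
      apply mul_le_mul_of_nonneg_right _ (by positivity)
      have : (univ.erase i).card ≤ k := (card_erase_le).trans (by simp)
      exact_mod_cast this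
    refine (sum_le_sum e4).trans (le_of_eq ?_)
    rw [sum_const, card_univ, Fintype.card_fin, nsmul_eq_mul]
    ring
  refine (sum_le_sum fun φ _ => e2 φ).trans (le_of_eq ?_)
  rw [sum_const, card_univ, nsmul_eq_mul]
  unfold EZ cS
  rw [← hP1, Fintype.card_fun, Fintype.card_fin, Fintype.card_fin, div_pow, div_pow]
  have hm0 : (m8 k : ℝ) ≠ 0 := by linarith
  have hmk : (m8 k : ℝ) ^ k = (m8 k : ℝ) ^ (k - 2) * (m8 k : ℝ) ^ 2 := by
    rw [← pow_add]
    congr 1
    omega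
  push_cast
  rw [hmk]
  field_simp

/-- the family of dominating transversals -/
noncomputable def Idom (k : ℕ) (S : Finset (Sym2 (Fin (n8 k)))) : Finset (Fin k → Fin (m8 k)) :=
  univ.filter (fun φ => IsDominating (gr S) (tr8 φ))

lemma card_Idom (k : ℕ) (S : Finset (Sym2 (Fin (n8 k)))) :
    ((Idom k S).card : ℝ) = ∑ φ : Fin k → Fin (m8 k), domI (tr8 φ) S := by
  unfold Idom domI
  rw [card_filter]
  push_cast
  rfl

lemma dg_eq (k : ℕ) (S : Finset (Sym2 (Fin (n8 k)))) (x y : Fin (n8 k)) :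
    dg (Idom k S) tr8 x y = ∑ φ : Fin k → Fin (m8 k), domI (tr8 φ) S *
      (if x ∈ tr8 φ ∧ y ∈ tr8 φ then 1 else 0) := by
  unfold dg Idom domI
  rw [filter_filter, card_filter]
  push_cast
  apply sum_congr rfl
  intro φ _
  by_cases h1 : IsDominating (gr S) (tr8 φ) <;> by_cases h2 : x ∈ tr8 φ ∧ y ∈ tr8 φ
  · rw [if_pos ⟨h1, h2⟩, if_pos h1, if_pos h2, one_mul]
  · rw [if_neg (fun h => h2 h.2), if_neg h2, mul_zero]
  · rw [if_neg (fun h => h1 h.1), if_neg h1, zero_mul]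
  · rw [if_neg (fun h => h1 h.1), if_neg h1, zero_mul]

lemma S2_eq (k : ℕ) (S : Finset (Sym2 (Fin (n8 k)))) : S2 (Idom k S) tr8 univ = SS k S := by
  unfold S2 SS
  have h1 : ∀ x y : Fin (n8 k), dg (Idom k S) tr8 x y ^ 2 = ∑ φ : Fin k → Fin (m8 k),
      ∑ ψ : Fin k → Fin (m8 k), domI (tr8 φ) S * domI (tr8 ψ) S *
        (if x ∈ tr8 φ ∩ tr8 ψ ∧ y ∈ tr8 φ ∩ tr8 ψ then 1 else 0) := by
    intro x y
    rw [dg_eq, sq, sum_mul_sum]
    apply sum_congr rfl; intro φ _
    apply sum_congr rfl; intro ψ _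
    have : (if x ∈ tr8 φ ∩ tr8 ψ ∧ y ∈ tr8 φ ∩ tr8 ψ then (1 : ℝ) else 0) =
        (if x ∈ tr8 φ ∧ y ∈ tr8 φ then 1 else 0) * (if x ∈ tr8 ψ ∧ y ∈ tr8 ψ then 1 else 0) := by
      by_cases h1 : x ∈ tr8 φ ∧ y ∈ tr8 φ <;> by_cases h2 : x ∈ tr8 ψ ∧ y ∈ tr8 ψ
      · rw [if_pos h1, if_pos h2, if_pos, one_mul]
        exact ⟨mem_inter.2 ⟨h1.1, h2.1⟩, mem_inter.2 ⟨h1.2, h2.2⟩⟩
      · rw [if_neg h2, mul_zero, if_neg]
        intro h
        exact h2 ⟨(mem_inter.1 h.1).2, (mem_inter.1 h.2).2⟩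
      · rw [if_neg h1, zero_mul, if_neg]
        intro h
        exact h1 ⟨(mem_inter.1 h.1).1, (mem_inter.1 h.2).1⟩
      · rw [if_neg h1, zero_mul, if_neg]
        intro h
        exact h1 ⟨(mem_inter.1 h.1).1, (mem_inter.1 h.2).1⟩
    rw [this]
    ring
  simp_rw [h1]
  have h2 : ∀ x : Fin (n8 k), ∑ y ∈ univ.erase x, ∑ φ : Fin k → Fin (m8 k),
      ∑ ψ : Fin k → Fin (m8 k), domI (tr8 φ) S * domI (tr8 ψ) S *
        (if x ∈ tr8 φ ∩ tr8 ψ ∧ y ∈ tr8 φ ∩ tr8 ψ then 1 else 0) =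
      ∑ φ : Fin k → Fin (m8 k), ∑ ψ : Fin k → Fin (m8 k), domI (tr8 φ) S * domI (tr8 ψ) S *
        ∑ y ∈ univ.erase x, (if x ∈ tr8 φ ∩ tr8 ψ ∧ y ∈ tr8 φ ∩ tr8 ψ then 1 else 0) := by
    intro x
    rw [sum_comm]
    apply sum_congr rfl; intro φ _
    rw [sum_comm]
    apply sum_congr rfl; intro ψ _
    rw [mul_sum]
  rw [sum_congr rfl (fun x _ => h2 x), sum_comm]
  apply sum_congr rfl; intro φ _
  rw [sum_comm]
  apply sum_congr rfl; intro ψ _
  rw [← mul_sum]
  congr 1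
  have h3 : agr φ ψ = (tr8 φ ∩ tr8 ψ).card := (card_tr8_inter φ ψ).symm
  rw [h3, ← sum_pairs]
  set J := tr8 φ ∩ tr8 ψ
  have h4 : ∀ x : Fin (n8 k), ∑ y ∈ univ.erase x, (if x ∈ J ∧ y ∈ J then (1 : ℝ) else 0) =
      if x ∈ J then ∑ _y ∈ J.erase x, (1 : ℝ) else 0 := by
    intro x
    by_cases hx : x ∈ J
    · rw [if_pos hx]
      have e : J.erase x = (univ.erase x).filter (fun y => y ∈ J) := by
        ext l
        simp only [mem_erase, mem_filter, mem_univ, and_true]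
      rw [e, sum_filter]
      apply sum_congr rfl
      intro y _
      by_cases hy : y ∈ J
      · rw [if_pos hy, if_pos ⟨hx, hy⟩]
      · rw [if_neg hy, if_neg (fun hh => hy hh.2)]
    · rw [if_neg hx]
      apply sum_eq_zero
      intro y _
      rw [if_neg (fun hh => hx hh.1)]
  rw [sum_congr rfl (fun x _ => h4 x), ← sum_filter]
  have h5 : univ.filter (fun x => x ∈ J) = J := by ext; simp
  rw [h5]

lemma cube_le (k : ℕ) : k ^ 3 ≤ 32 * 2 ^ k := by
  rcases Nat.lt_or_ge k 4 with h | h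
  · interval_cases k <;> norm_num
  · induction k, h using Nat.le_induction with
    | base => norm_num
    | succ k hk ih =>
      calc (k + 1) ^ 3 ≤ 2 * k ^ 3 := by nlinarith [mul_le_mul hk hk (by norm_num) (by omega)]
        _ ≤ 2 * (32 * 2 ^ k) := Nat.mul_le_mul_left _ ih
        _ = _ := by ring

lemma m8_big {k : ℕ} (hk : 2 ≤ k) : k ^ 4 * 4 ^ (k - 2) ≤ m8 k := by
  obtain ⟨l, rfl⟩ : ∃ l, k = l + 2 := ⟨k - 2, by omega⟩
  have h1 := cube_le (l + 2)
  unfold m8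
  have h2 : (8 : ℕ) ^ (l + 2) = 2 ^ (l + 2) * 4 ^ (l + 2) := by
    rw [← mul_pow, show (2 * 4 : ℕ) = 8 from rfl]
  rw [h2, Nat.add_sub_cancel]
  calc (l + 2) ^ 4 * 4 ^ l = (l + 2) * (4 ^ l * (l + 2) ^ 3) := by ring
    _ ≤ (l + 2) * (4 ^ l * (32 * 2 ^ (l + 2))) := by gcongr
    _ = 2 * (l + 2) * (2 ^ (l + 2) * 4 ^ (l + 2)) := by
        rw [pow_add 4 l 2]
        ring

/-- deterministic conclusion -/
theorem size_of_good {k : ℕ} (hk : 3 ≤ k) (S : Finset (Sym2 (Fin (n8 k))))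
    (h1 : EZ k / 2 < ∑ φ : Fin k → Fin (m8 k), domI (tr8 φ) S)
    (h2 : SS k S ≤ k * (EZ k ^ 2 * ((k : ℝ) / m8 k) ^ 2)) :
    sizeMB (gr S) 1 ≤ (k : ℕ∞) := by
  apply sizeMB_le (Idom k S) tr8 k (fun φ _ => card_tr8 φ) (fun φ hφ => (mem_filter.1 hφ).2)
  rw [card_Idom]
  refine lt_of_le_of_lt ?_ h1
  unfold loss
  rw [S2_eq, card_univ, Fintype.card_fin]
  have hm1 := m8_pos (k := k) (by omega)
  have hmr : (1 : ℝ) ≤ (m8 k : ℝ) := by exact_mod_cast hm1
  have hε8 := e8_le (k := k) (by omega)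
  have hEZ : 0 ≤ EZ k := by
    unfold EZ
    have : 0 ≤ 1 - e8 k := by linarith
    positivity
  have hkey : (n8 k : ℝ) * SS k S ≤ (EZ k / 2 ^ (k - 2)) ^ 2 := by
    have hbig : (k : ℝ) ^ 4 * 4 ^ (k - 2) ≤ (m8 k : ℝ) := by exact_mod_cast m8_big (by omega)
    have h4 : (4 : ℝ) ^ (k - 2) = (2 ^ (k - 2)) ^ 2 := by
      rw [← pow_mul, mul_comm, pow_mul]
      norm_num
    calc (n8 k : ℝ) * SS k S ≤ (n8 k : ℝ) * (k * (EZ k ^ 2 * ((k : ℝ) / m8 k) ^ 2)) :=
          mul_le_mul_of_nonneg_left h2 (Nat.cast_nonneg _)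
      _ = EZ k ^ 2 * ((k : ℝ) ^ 4 / m8 k) := by
          rw [n8_eq]
          have : (m8 k : ℝ) ≠ 0 := by linarith
          field_simp
      _ ≤ EZ k ^ 2 * (1 / 4 ^ (k - 2)) := by
          apply mul_le_mul_of_nonneg_left _ (sq_nonneg _)
          rw [div_le_div_iff₀ (by linarith) (by positivity)]
          linarith
      _ = _ := by rw [h4, div_pow]; ring
  have h3 : √((n8 k : ℝ) * SS k S) ≤ EZ k / 2 ^ (k - 2) := by
    rw [show EZ k / 2 ^ (k - 2) = √((EZ k / 2 ^ (k - 2)) ^ 2) by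
      rw [Real.sqrt_sq (by positivity)]]
    exact Real.sqrt_le_sqrt hkey
  have h5 : (0 : ℝ) < 2 ^ (k - 2) := by positivity
  calc 2 ^ (k - 2) * (√((n8 k : ℝ) * SS k S) / 2) ≤ 2 ^ (k - 2) * ((EZ k / 2 ^ (k - 2)) / 2) := by
        gcongr
    _ = EZ k / 2 := by field_simp

/-- twins -/
theorem Pr_twins8 {k : ℕ} (hk : 1 ≤ k) :
    Pr (allE (n8 k)) (7 / 8) (fun S => Twins (gr S) k) ≤
      (n8 k : ℝ) ^ (k + 1) * (1 - 15 / 8 * e8 k) ^ (n8 k - (k + 1)) := by
  have hε0 := e8_pos k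
  have hε4 := e8_le hk
  set T : Finset (Finset (Fin (n8 k)) × Fin (n8 k) × Fin (n8 k)) :=
    ((powersetCard (k - 1) univ) ×ˢ (univ ×ˢ univ)).filter
      (fun t => t.2.1 ∉ t.1 ∧ t.2.2 ∉ t.1 ∧ t.2.1 ≠ t.2.2) with hT
  have h1 : Pr (allE (n8 k)) (7 / 8) (fun S => Twins (gr S) k) ≤
      Pr (allE (n8 k)) (7 / 8) (fun S => ∃ t ∈ T, IsDominating (gr S) (insert t.2.1 t.1) ∧
        IsDominating (gr S) (insert t.2.2 t.1)) := by
    apply Pr_mono h78 h78'
    rintro S _ ⟨A, v, v', hA, hv, hv', hne, hd, hd'⟩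
    refine ⟨(A, v, v'), ?_, hd, hd'⟩
    rw [hT, mem_filter, mem_product, mem_powersetCard]
    have hA' : A.card = k - 1 := by omega
    exact ⟨⟨⟨subset_univ _, hA'⟩, by simp⟩, hv, hv', hne⟩
  refine h1.trans ((Pr_exists_le h78 h78' T _).trans ?_)
  have h2 : ∀ t ∈ T, Pr (allE (n8 k)) (7 / 8) (fun S => IsDominating (gr S) (insert t.2.1 t.1) ∧
        IsDominating (gr S) (insert t.2.2 t.1)) ≤ (1 - 15 / 8 * e8 k) ^ (n8 k - (k + 1)) := by
    intro t ht
    rw [hT, mem_filter, mem_product, mem_powersetCard] at ht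
    obtain ⟨⟨⟨_, hc⟩, _⟩, h3, h4, h5⟩ := ht
    refine (Pr_dom_two h78 h78' _ _).trans (le_of_eq ?_)
    have c1 : (insert t.2.1 t.1).card = k := by rw [card_insert_of_notMem h3]; omega
    have c2 : (insert t.2.2 t.1).card = k := by rw [card_insert_of_notMem h4]; omega
    have c3 : (insert t.2.1 t.1 ∪ insert t.2.2 t.1).card = k + 1 := by
      have : insert t.2.1 t.1 ∪ insert t.2.2 t.1 = insert t.2.1 (insert t.2.2 t.1) := by
        ext x
        simp only [mem_union, mem_insert]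
        tauto
      rw [this, card_insert_of_notMem, c2]
      rw [mem_insert]
      push Not
      exact ⟨h5, h3⟩
    rw [c1, c2, c3]
    congr 1
    rw [show (1 - 7 / 8 : ℝ) = 1 / 8 by norm_num, pow_succ]
    unfold e8
    ring
  refine (sum_le_sum h2).trans ?_
  rw [sum_const, nsmul_eq_mul]
  apply mul_le_mul_of_nonneg_right _ (by
    apply pow_nonneg
    linarith)
  have h3 : T.card ≤ (n8 k) ^ (k + 1) := by
    refine (card_filter_le _ _).trans ?_
    rw [card_product, card_product, card_powersetCard, card_univ, Fintype.card_fin]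
    have h4 : (n8 k).choose (k - 1) ≤ (n8 k) ^ (k - 1) := Nat.choose_le_pow _ _
    calc (n8 k).choose (k - 1) * (n8 k * n8 k) ≤ (n8 k) ^ (k - 1) * (n8 k * n8 k) :=
          Nat.mul_le_mul_right _ h4
      _ = (n8 k) ^ (k - 1 + 2) := by rw [pow_add]; ring
      _ = _ := by congr 1; omega
  exact_mod_cast h3

/-- all together -/
theorem Pr_equal_le {k : ℕ} (hk : 3 ≤ k) :
    Pr (allE (n8 k)) (7 / 8) (fun S => timeMB (gr S) 1 = sizeMB (gr S) 1) ≤
      4 * (cA k * (((m8 k : ℝ) - 1 + Real.exp (2 * k)) / m8 k) ^ k - 1) + cS k / k +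
      (n8 k : ℝ) ^ (k + 1) * (1 - 15 / 8 * e8 k) ^ (n8 k - (k + 1)) := by
  have hm1 := m8_pos (k := k) (by omega)
  have hmr : (1 : ℝ) ≤ (m8 k : ℝ) := by exact_mod_cast hm1
  have hε0 := e8_pos k
  have hε8 := e8_le (k := k) (by omega)
  have hkr : (3 : ℝ) ≤ k := by exact_mod_cast hk
  have hEZ : 0 < EZ k := by
    unfold EZ
    have : 0 < 1 - e8 k := by linarith
    rw [Fintype.card_fun, Fintype.card_fin, Fintype.card_fin]
    have h2 : 0 < (m8 k) ^ k := Nat.pow_pos hm1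
    have h3 : (0 : ℝ) < ((m8 k ^ k : ℕ) : ℝ) := by exact_mod_cast h2
    positivity
  set K := EZ k ^ 2 * ((k : ℝ) / m8 k) ^ 2 with hK
  have hK0 : 0 < K := by positivity
  have hmarkov : Pr (allE (n8 k)) (7 / 8) (fun S => k * K ≤ SS k S) ≤ cS k / k := by
    refine (Pr_le_Ex h78 h78' _ (fun S => (1 / (k * K)) * SS k S) ?_ ?_).trans ?_
    · intro S _
      exact mul_nonneg (by positivity) (SS_nonneg k S)
    · intro S _ hS
      rw [one_div, ← div_eq_inv_mul, le_div_iff₀ (by positivity), one_mul]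
      exact hS
    · rw [Ex_smul]
      have := Ex_SS hk
      calc 1 / (k * K) * Ex (allE (n8 k)) (7 / 8) (SS k) ≤ 1 / (k * K) * (K * cS k) :=
            mul_le_mul_of_nonneg_left this (by positivity)
        _ = cS k / k := by field_simp
  refine le_trans (Pr_mono h78 h78' (B := fun S => ((∑ φ : Fin k → Fin (m8 k), domI (tr8 φ) S ≤
    EZ k / 2) ∨ k * K ≤ SS k S) ∨ Twins (gr S) k) ?_) ((Pr_or_le h78 h78' _ _).trans
    (add_le_add ((Pr_or_le h78 h78' _ _).trans (add_le_add (Pr_few (by omega)) hmarkov))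
      (Pr_twins8 (by omega))))
  intro S _ hS
  by_contra hcon
  push Not at hcon
  obtain ⟨⟨h1, h2⟩, h3⟩ := hcon
  have h4 := size_of_good hk S h1 h2.le
  have h5 : ∃ D : Finset (Fin (n8 k)), D.card = k ∧ IsDominating (gr S) D := by
    have h6 : 0 < ∑ φ : Fin k → Fin (m8 k), domI (tr8 φ) S := by linarith
    obtain ⟨φ, _, hφ⟩ := exists_ne_zero_of_sum_ne_zero h6.ne'
    refine ⟨tr8 φ, card_tr8 φ, ?_⟩
    by_contra hcon2
    apply hφ
    unfold domI
    rw [if_neg hcon2]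
  have h6 := lt_timeMB (G := gr S) (k := k) (by omega) (by
    rw [Fintype.card_fin]
    have := le_n8 (k := k) (by omega)
    omega) h5 h3
  rw [hS] at h6
  exact absurd h4 (not_le.2 h6)

/-! ### Limits -/

lemma pow_mul_e8_tendsto (r : ℕ) : Tendsto (fun k : ℕ => (k : ℝ) ^ r * e8 k) atTop (𝓝 0) := by
  have := tendsto_pow_const_mul_const_pow_of_lt_one r (r := (1 / 8 : ℝ)) (by norm_num) (by norm_num)
  exact this

lemma c_tendsto (C : ℝ) : Tendsto (fun k => ((1 - e8 k) ^ (2 * k))⁻¹ *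
    Real.exp (C * ((k : ℝ) ^ 2 * e8 k))) atTop (𝓝 1) := by
  have h1 : Tendsto (fun k : ℕ => Real.exp (C * ((k : ℝ) ^ 2 * e8 k))) atTop (𝓝 1) := by
    have := (Real.continuous_exp.tendsto _).comp ((pow_mul_e8_tendsto 2).const_mul C)
    simp only [mul_zero, Real.exp_zero] at this
    exact this
  have h2 : Tendsto (fun k : ℕ => (1 - e8 k) ^ (2 * k)) atTop (𝓝 1) := by
    have h3 : Tendsto (fun k : ℕ => 1 - 2 * ((k : ℝ) ^ 1 * e8 k)) atTop (𝓝 1) := by
      have := ((pow_mul_e8_tendsto 1).const_mul 2).const_sub 1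
      simpa using this
    refine tendsto_of_tendsto_of_tendsto_of_le_of_le' h3 tendsto_const_nhds ?_ ?_
    · filter_upwards [eventually_ge_atTop 1] with k hk
      have h4 := e8_le hk
      have h5 := e8_pos k
      have h6 := one_add_mul_le_pow (a := -e8 k) (by linarith) (2 * k)
      push_cast at h6
      have h7 : (1 : ℝ) + -e8 k = 1 - e8 k := by ring
      rw [h7] at h6
      linarith
    · filter_upwards [eventually_ge_atTop 1] with k hk
      have h4 := e8_le hk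
      have h5 := e8_pos k
      exact pow_le_one₀ (by linarith) (by linarith)
  have := (h2.inv₀ one_ne_zero).mul h1
  simpa using this

/-- the power factor tends to one -/
lemma pow_tendsto (C : ℝ) (r : ℕ → ℕ) (hr : ∀ k, r k ≤ k) :
    Tendsto (fun k => (((m8 k : ℝ) - 1 + Real.exp (2 * k + C)) / m8 k) ^ (r k)) atTop (𝓝 1) := by
  have h4 : Real.exp 2 / 8 < 1 := by
    have h5 : Real.exp 2 = Real.exp 1 ^ 2 := by rw [← Real.exp_nat_mul]; norm_num
    have := Real.exp_one_lt_d9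
    have h6 : Real.exp 1 ^ 2 ≤ 2.7182818286 ^ 2 := pow_le_pow_left₀ (Real.exp_pos _).le this.le 2
    rw [h5]
    norm_num at h6 ⊢
    linarith
  have h5 : Tendsto (fun k : ℕ => (Real.exp 2 / 8) ^ k) atTop (𝓝 0) :=
    tendsto_pow_atTop_nhds_zero_of_lt_one (by positivity) h4
  have h6 : Tendsto (fun k : ℕ => Real.exp (Real.exp C * (Real.exp 2 / 8) ^ k)) atTop (𝓝 1) := by
    have := (Real.continuous_exp.tendsto _).comp (h5.const_mul (Real.exp C))
    simp only [mul_zero, Real.exp_zero] at this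
    exact this
  -- it is at least one once the exponential is at least one
  have hC : ∀ᶠ k : ℕ in atTop, -C ≤ 2 * (k : ℝ) :=
    ((tendsto_natCast_atTop_atTop (R := ℝ)).const_mul_atTop (by norm_num : (0 : ℝ) < 2)).eventually_ge_atTop (-C)
  refine tendsto_of_tendsto_of_tendsto_of_le_of_le' tendsto_const_nhds h6 ?_ ?_
  · filter_upwards [eventually_ge_atTop 1, hC] with k hk hCk
    have hmr : (1 : ℝ) ≤ (m8 k : ℝ) := by exact_mod_cast m8_pos hk
    apply one_le_pow₀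
    rw [le_div_iff₀ (by linarith)]
    have := Real.one_le_exp (x := 2 * (k : ℝ) + C) (by linarith)
    linarith
  · filter_upwards [eventually_ge_atTop 1, hC] with k hk hCk
    have hmr : (1 : ℝ) ≤ (m8 k : ℝ) := by exact_mod_cast m8_pos hk
    have hkr : (1 : ℝ) ≤ k := by exact_mod_cast hk
    have hbase1 : 1 ≤ ((m8 k : ℝ) - 1 + Real.exp (2 * k + C)) / m8 k := by
      rw [le_div_iff₀ (by linarith)]
      have := Real.one_le_exp (x := 2 * (k : ℝ) + C) (by linarith)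
      linarith
    have hbase : ((m8 k : ℝ) - 1 + Real.exp (2 * k + C)) / m8 k ≤
        Real.exp (Real.exp (2 * k + C) / m8 k) := by
      have h7 := Real.add_one_le_exp (Real.exp (2 * (k : ℝ) + C) / m8 k)
      refine le_trans ?_ h7
      rw [div_le_iff₀ (by linarith)]
      have : (Real.exp (2 * k + C) / m8 k + 1) * m8 k = Real.exp (2 * k + C) + m8 k := by field_simp
      rw [this]
      linarith
    calc (((m8 k : ℝ) - 1 + Real.exp (2 * k + C)) / m8 k) ^ (r k)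
        ≤ (((m8 k : ℝ) - 1 + Real.exp (2 * k + C)) / m8 k) ^ k :=
          pow_le_pow_right₀ hbase1 (hr k)
      _ ≤ Real.exp (Real.exp (2 * k + C) / m8 k) ^ k := pow_le_pow_left₀ (by linarith) hbase k
      _ = Real.exp (k * (Real.exp (2 * k + C) / m8 k)) := by rw [← Real.exp_nat_mul]
      _ ≤ _ := by
          apply Real.exp_le_exp.2
          have h8 : (k : ℝ) * (Real.exp (2 * k + C) / m8 k) =
              (Real.exp C * (Real.exp 2 / 8) ^ k) / 2 := by
            rw [m8_cast, Real.exp_add, div_pow, ← Real.exp_nat_mul]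
            have : Real.exp (2 * (k : ℝ)) = Real.exp ((k : ℝ) * 2) := by rw [mul_comm]
            rw [this]
            field_simp
          rw [h8]
          have : 0 < Real.exp C * (Real.exp 2 / 8) ^ k := by positivity
          linarith

lemma twins8_tendsto : Tendsto (fun k : ℕ => (n8 k : ℝ) ^ (k + 1) *
    (1 - 15 / 8 * e8 k) ^ (n8 k - (k + 1))) atTop (𝓝 0) := by
  have hexp : Tendsto (fun k : ℕ => (k : ℝ) ^ 2 * (-1 + 4 * (k : ℝ)⁻¹ +
      8 * (√(k : ℝ))⁻¹ + 3 * ((k : ℝ)⁻¹ ^ 2))) atTop atBot := by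
    have h1 : Tendsto (fun k : ℕ => (k : ℝ)⁻¹) atTop (𝓝 0) := tendsto_inv_atTop_nhds_zero_nat
    have h2 : Tendsto (fun k : ℕ => (√(k : ℝ))⁻¹) atTop (𝓝 0) :=
      tendsto_inv_atTop_zero.comp (Real.tendsto_sqrt_atTop.comp tendsto_natCast_atTop_atTop)
    have h3 : Tendsto (fun k : ℕ => -1 + 4 * (k : ℝ)⁻¹ +
      8 * (√(k : ℝ))⁻¹ + 3 * ((k : ℝ)⁻¹ ^ 2)) atTop (𝓝 (-1 + 4 * 0 + 8 * 0 + 3 * 0 ^ 2)) :=
      (((h1.const_mul 4).const_add _).add (h2.const_mul 8)).add ((h1.pow 2).const_mul 3)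
    have h4 : Tendsto (fun k : ℕ => (k : ℝ) ^ 2) atTop atTop :=
      (tendsto_pow_atTop (by norm_num)).comp tendsto_natCast_atTop_atTop
    exact h4.atTop_mul_neg (by norm_num) h3
  have h0 := Real.tendsto_exp_atBot.comp hexp
  refine tendsto_of_tendsto_of_tendsto_of_le_of_le' tendsto_const_nhds h0 ?_ ?_
  · filter_upwards [eventually_ge_atTop 1] with k hk
    have h4 := e8_le hk
    have h5 := e8_pos k
    exact mul_nonneg (by positivity) (pow_nonneg (by linarith) _)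
  · filter_upwards [eventually_ge_atTop 1] with k hk
    have h4 := e8_le hk
    have h5 := e8_pos k
    have hkr : (1 : ℝ) ≤ k := by exact_mod_cast hk
    have hnn := le_n8 hk
    have hnpos : (0 : ℝ) < n8 k := by
      have : 0 < n8 k := by omega
      exact_mod_cast this
    have e1 : (n8 k : ℝ) ^ (k + 1) = Real.exp (((k : ℝ) + 1) * Real.log (n8 k)) := by
      rw [← Real.exp_log hnpos, ← Real.exp_nat_mul, Real.log_exp]
      push_cast
      rfl
    have e2 : (1 - 15 / 8 * e8 k) ^ (n8 k - (k + 1)) ≤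
        Real.exp (-(15 / 8 * (2 * (k : ℝ) ^ 2 - 1))) := by
      calc (1 - 15 / 8 * e8 k) ^ (n8 k - (k + 1)) ≤ Real.exp (-(15 / 8 * e8 k)) ^ (n8 k - (k + 1)) := by
            apply pow_le_pow_left₀ (by linarith)
            have := Real.add_one_le_exp (-(15 / 8 * e8 k))
            linarith
        _ = Real.exp (((n8 k - (k + 1) : ℕ) : ℝ) * (-(15 / 8 * e8 k))) := by
            rw [← Real.exp_nat_mul]
        _ ≤ _ := by
            apply Real.exp_le_exp.2
            rw [Nat.cast_sub (by omega)]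
            push_cast
            have h6 := e8_n8 k
            have h7 : e8 k * ((k : ℝ) + 1) ≤ 1 := by
              have h8 : k + 1 ≤ 8 ^ k := by
                have : k < 8 ^ k := Nat.lt_pow_self (by norm_num)
                omega
              have h9 : ((k : ℝ) + 1) ≤ 8 ^ k := by exact_mod_cast h8
              calc e8 k * ((k : ℝ) + 1) ≤ e8 k * 8 ^ k := mul_le_mul_of_nonneg_left h9 h5.le
                _ = 1 := e8_mul k
            nlinarith
    rw [e1]
    refine le_trans (mul_le_mul_of_nonneg_left e2 (Real.exp_pos _).le) ?_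
    rw [← Real.exp_add]
    simp only [Function.comp]
    apply Real.exp_le_exp.2
    have hlog : Real.log (n8 k) = Real.log 2 + 2 * Real.log k + k * Real.log 8 := by
      rw [n8_cast, Real.log_mul (by positivity) (by positivity),
        Real.log_mul (by positivity) (by positivity), Real.log_pow, Real.log_pow]
      push_cast
      ring
    have hl2 : Real.log 2 ≤ 1 := by linarith [Real.log_two_lt_d9]
    have hl8 : Real.log 8 ≤ 21 / 10 := by
      have : (8 : ℝ) = 2 ^ 3 := by norm_num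
      rw [this, Real.log_pow]
      have := Real.log_two_lt_d9
      push_cast
      linarith
    have hsk : 0 < √(k : ℝ) := Real.sqrt_pos.2 (by linarith)
    have hsk2 : √(k : ℝ) * √(k : ℝ) = k := Real.mul_self_sqrt (by linarith)
    have hlk : Real.log k ≤ 2 * √(k : ℝ) := by
      have h6 : Real.log k = 2 * Real.log (√(k : ℝ)) := by
        rw [Real.log_sqrt (by linarith)]
        ring
      rw [h6]
      have := Real.log_le_sub_one_of_pos hsk
      linarith
    rw [hlog]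
    have hR : (k : ℝ) ^ 2 * (-1 + 4 * (k : ℝ)⁻¹ + 8 * (√(k : ℝ))⁻¹ + 3 * ((k : ℝ)⁻¹ ^ 2)) =
        -(k : ℝ) ^ 2 + 4 * k + 8 * (k * √(k : ℝ)) + 3 := by
      have h7 : (k : ℝ) * (k : ℝ)⁻¹ = 1 := mul_inv_cancel₀ (by linarith)
      have h8 : (k : ℝ) * (√(k : ℝ))⁻¹ = √(k : ℝ) := by
        nth_rewrite 1 [← hsk2]
        rw [mul_assoc, mul_inv_cancel₀ hsk.ne', mul_one]
      calc _ = -(k : ℝ) ^ 2 + 4 * k * ((k : ℝ) * (k : ℝ)⁻¹) +
            8 * (k * ((k : ℝ) * (√(k : ℝ))⁻¹)) + 3 * (((k : ℝ) * (k : ℝ)⁻¹) ^ 2) := by ring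
        _ = _ := by rw [h7, h8]; ring
    rw [hR]
    have h9 : ((k : ℝ) + 1) * (2 * Real.log k) ≤ 8 * (k * √(k : ℝ)) := by
      have h10 : ((k : ℝ) + 1) ≤ 2 * k := by linarith
      have h11 : 0 ≤ Real.log k := Real.log_nonneg hkr
      calc ((k : ℝ) + 1) * (2 * Real.log k) ≤ (2 * k) * (2 * (2 * √(k : ℝ))) := by
            apply mul_le_mul h10 (by linarith) (by positivity) (by positivity)
        _ = _ := by ring
    have h12 : ((k : ℝ) + 1) * (k * Real.log 8) ≤ ((k : ℝ) + 1) * (k * (21 / 10)) := by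
      gcongr
    have h13 : ((k : ℝ) + 1) * Real.log 2 ≤ ((k : ℝ) + 1) * 1 := by gcongr
    nlinarith

theorem equal_tendsto : Tendsto (fun k => Pr (allE (n8 k)) (7 / 8)
    (fun S => timeMB (gr S) 1 = sizeMB (gr S) 1)) atTop (𝓝 0) := by
  have h1 : Tendsto (fun k => 4 * (cA k * (((m8 k : ℝ) - 1 + Real.exp (2 * k)) / m8 k) ^ k - 1))
      atTop (𝓝 0) := by
    have a := c_tendsto 12
    have b := pow_tendsto 0 (fun k => k) (fun k => le_rfl)
    simp only [add_zero] at b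
    have := ((a.mul b).sub_const 1).const_mul 4
    rw [mul_one, sub_self, mul_zero] at this
    exact this
  have h2 : Tendsto (fun k => cS k / (k : ℝ)) atTop (𝓝 0) := by
    have a := c_tendsto 600
    have b := pow_tendsto 12 (fun k => k - 2) (fun k => Nat.sub_le _ _)
    have c : Tendsto (fun k : ℕ => (k : ℝ)⁻¹) atTop (𝓝 0) := tendsto_inv_atTop_nhds_zero_nat
    have := (a.mul b).mul c
    rw [mul_zero] at this
    exact this
  have h := (h1.add h2).add twins8_tendsto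
  rw [add_zero, add_zero] at h
  refine tendsto_of_tendsto_of_tendsto_of_le_of_le' tendsto_const_nhds h ?_ ?_
  · filter_upwards with k
    exact Pr_nonneg h78 h78' _
  · filter_upwards [eventually_ge_atTop 3] with k hk
    exact Pr_equal_le hk

end Q299.MBD
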