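import Pool.Agent.Q299.MBD.SizeDefs
import Pool.Agent.Q299.MBD.Game

/-!
# Deterministic part: Maker's potential strategy, and twins
-/

set_option linter.unusedSectionVars false

namespace Q299.MBD

open Finset

variable {V : Type} [Fintype V] [DecidableEq V]

lemma force_succ {b : ℕ} {Win : Finset V → Prop} (t : ℕ) : ∀ A B : Finset V,
    Force b Win t A B → Force b Win (t + 1) A B := by
  induction t with
  | zero => intro A B h; exact Or.inl h
  | succ t ih =>
    intro A B h
    rcases h with h | ⟨x, hx, h⟩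
    · exact Or.inl h
    · exact Or.inr ⟨x, hx, fun Y hY hb => ih _ _ (h Y hY hb)⟩

lemma force_mono {b : ℕ} {Win : Finset V → Prop} {t t' : ℕ} (ht : t ≤ t') {A B : Finset V}
    (h : Force b Win t A B) : Force b Win t' A B := by
  induction t', ht using Nat.le_induction with
  | base => exact h
  | succ t' _ ih => exact force_succ t' A B ih

lemma force_win {b : ℕ} {Win Win' : Finset V → Prop} (hW : ∀ A, Win A → Win' A) (t : ℕ) :
    ∀ A B : Finset V, Force b Win t A B → Force b Win' t A B := by
  induction t with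
  | zero => intro A B h; exact hW _ h
  | succ t ih =>
    intro A B h
    rcases h with h | ⟨x, hx, h⟩
    · exact Or.inl (hW _ h)
    · exact Or.inr ⟨x, hx, fun Y hY hb => ih _ _ (h Y hY hb)⟩

section Maker

variable {ι : Type} (I : Finset ι) (F : ι → Finset V) (k : ℕ)

/-- the sets of the family that are not yet hit by Breaker -/
def alive (B : Finset V) : Finset ι := I.filter (fun i => Disjoint (F i) B)

/-- potential -/
noncomputable def pot (A B : Finset V) : ℝ := ∑ i ∈ alive I F B, (2 : ℝ) ^ (F i ∩ A).card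

/-- potential of the sets through a vertex -/
noncomputable def potv (A B : Finset V) (x : V) : ℝ :=
  ∑ i ∈ (alive I F B).filter (fun i => x ∈ F i), (2 : ℝ) ^ (F i ∩ A).card

/-- pair degree -/
noncomputable def dg (x y : V) : ℝ := ((I.filter (fun i => x ∈ F i ∧ y ∈ F i)).card : ℝ)

/-- sum of the squares of the pair degrees -/
noncomputable def S2 (U : Finset V) : ℝ := ∑ x ∈ U, ∑ y ∈ U.erase x, dg I F x y ^ 2

/-- loss function -/
noncomputable def loss (U : Finset V) : ℝ := √((U.card : ℝ) * S2 I F U) / 2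

lemma dg_nonneg (x y : V) : 0 ≤ dg I F x y := Nat.cast_nonneg _

lemma dg_comm (x y : V) : dg I F x y = dg I F y x := by
  unfold dg
  congr 2
  ext i
  simp only [mem_filter]
  tauto

lemma S2_nonneg (U : Finset V) : 0 ≤ S2 I F U :=
  sum_nonneg fun _ _ => sum_nonneg fun _ _ => sq_nonneg _

lemma S2_mono {U' U : Finset V} (h : U' ⊆ U) : S2 I F U' ≤ S2 I F U := by
  unfold S2
  refine (sum_le_sum_of_subset_of_nonneg h fun _ _ _ => sum_nonneg fun _ _ => sq_nonneg _).trans ?_
  apply sum_le_sum
  intro x _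
  exact sum_le_sum_of_subset_of_nonneg (erase_subset_erase _ h) fun _ _ _ => sq_nonneg _

lemma loss_mono {U' U : Finset V} (h : U' ⊆ U) : loss I F U' ≤ loss I F U := by
  unfold loss
  have h1 : ((U'.card : ℝ)) ≤ U.card := by exact_mod_cast card_le_card h
  have h2 := S2_mono I F h
  have h3 := S2_nonneg I F U'
  gcongr

lemma S2_pair {U : Finset V} {x y : V} (hx : x ∈ U) (hy : y ∈ U) (hne : x ≠ y) :
    S2 I F ((U.erase x).erase y) + 2 * dg I F x y ^ 2 ≤ S2 I F U := by
  set U' := (U.erase x).erase y with hU'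
  have hyU : y ∈ U.erase x := mem_erase.2 ⟨hne.symm, hy⟩
  have e1 : S2 I F U = ∑ y' ∈ U.erase x, dg I F x y' ^ 2 + (∑ y' ∈ U.erase y, dg I F y y' ^ 2 +
      ∑ x' ∈ U', ∑ y' ∈ U.erase x', dg I F x' y' ^ 2) := by
    unfold S2
    rw [← add_sum_erase U (fun x' => ∑ y' ∈ U.erase x', dg I F x' y' ^ 2) hx,
      ← add_sum_erase (U.erase x) (fun x' => ∑ y' ∈ U.erase x', dg I F x' y' ^ 2) hyU]
  have h1 : dg I F x y ^ 2 ≤ ∑ y' ∈ U.erase x, dg I F x y' ^ 2 :=
    single_le_sum (f := fun y' => dg I F x y' ^ 2) (fun _ _ => sq_nonneg _) hyU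
  have h2 : dg I F y x ^ 2 ≤ ∑ y' ∈ U.erase y, dg I F y y' ^ 2 :=
    single_le_sum (f := fun y' => dg I F y y' ^ 2) (fun _ _ => sq_nonneg _)
      (mem_erase.2 ⟨hne, hx⟩)
  have h3 : S2 I F U' ≤ ∑ x' ∈ U', ∑ y' ∈ U.erase x', dg I F x' y' ^ 2 := by
    unfold S2
    apply sum_le_sum
    intro x' _
    apply sum_le_sum_of_subset_of_nonneg _ fun _ _ _ => sq_nonneg _
    apply erase_subset_erase
    rw [hU']
    exact (erase_subset _ _).trans (erase_subset _ _)
  rw [dg_comm I F y x] at h2
  linarith

lemma cs_aux {a s d : ℝ} (ha : 0 ≤ a) (hs : 0 ≤ s) :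
    2 * d + √(a * s) ≤ √((a + 2) * (s + 2 * d ^ 2)) := by
  apply Real.le_sqrt_of_sq_le
  have h1 : √(a * s) ^ 2 = a * s := Real.sq_sqrt (mul_nonneg ha hs)
  have h2 : √(a * s) = √a * √s := Real.sqrt_mul ha s
  have h3 : √a ^ 2 = a := Real.sq_sqrt ha
  have h4 : √s ^ 2 = s := Real.sq_sqrt hs
  have h5 : (2 * d + √(a * s)) ^ 2 = 4 * d ^ 2 + 4 * d * (√a * √s) + a * s := by
    rw [← h2]
    nlinarith
  rw [h5]
  have h6 : 0 ≤ (√a * d - √s) ^ 2 := sq_nonneg _
  have h7 : (√a * d - √s) ^ 2 = a * d ^ 2 - 2 * d * (√a * √s) + s := by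
    calc (√a * d - √s) ^ 2 = √a ^ 2 * d ^ 2 - 2 * d * (√a * √s) + √s ^ 2 := by ring
      _ = _ := by rw [h3, h4]
  nlinarith

lemma loss_pair {U : Finset V} {x y : V} (hx : x ∈ U) (hy : y ∈ U) (hne : x ≠ y) :
    dg I F x y + loss I F ((U.erase x).erase y) ≤ loss I F U := by
  have h1 := S2_pair I F hx hy hne
  have hcard : ((((U.erase x).erase y).card : ℝ)) + 2 = (U.card : ℝ) := by
    have hyU : y ∈ U.erase x := mem_erase.2 ⟨hne.symm, hy⟩
    have h2 := card_erase_add_one hyU
    have h3 := card_erase_add_one hx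
    have : ((U.erase x).erase y).card + 2 = U.card := by omega
    exact_mod_cast this
  have h2 := cs_aux (a := (((U.erase x).erase y).card : ℝ)) (s := S2 I F ((U.erase x).erase y))
    (d := dg I F x y) (Nat.cast_nonneg _) (S2_nonneg _ _ _)
  have h3 : √(((((U.erase x).erase y).card : ℝ) + 2) *
      (S2 I F ((U.erase x).erase y) + 2 * dg I F x y ^ 2)) ≤ √((U.card : ℝ) * S2 I F U) := by
    apply Real.sqrt_le_sqrt
    rw [hcard]
    exact mul_le_mul_of_nonneg_left h1 (Nat.cast_nonneg _)
  unfold loss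
  linarith

lemma pot_insert {A B : Finset V} {x : V} (hx : x ∉ A) :
    pot I F (insert x A) B = pot I F A B + potv I F A B x := by
  unfold pot potv
  rw [sum_filter, ← sum_add_distrib]
  apply sum_congr rfl
  intro i _
  by_cases h : x ∈ F i
  · rw [if_pos h]
    have : F i ∩ insert x A = insert x (F i ∩ A) := by
      ext z; simp only [mem_inter, mem_insert]
      constructor
      · rintro ⟨h1, h2 | h2⟩
        · exact Or.inl h2
        · exact Or.inr ⟨h1, h2⟩
      · rintro (h1 | ⟨h1, h2⟩)
        · rw [h1]; exact ⟨h, Or.inl rfl⟩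
        · exact ⟨h1, Or.inr h2⟩
    rw [this, card_insert_of_notMem (fun h' => hx (mem_inter.1 h').2), pow_succ]
    ring
  · rw [if_neg h, add_zero]
    congr 2
    ext z; simp only [mem_inter, mem_insert]
    constructor
    · rintro ⟨h1, h2 | h2⟩
      · rw [h2] at h1; exact absurd h1 h
      · exact ⟨h1, h2⟩
    · rintro ⟨h1, h2⟩
      exact ⟨h1, Or.inr h2⟩

lemma pot_union {A B : Finset V} {y : V} :
    pot I F A (B ∪ {y}) = pot I F A B - potv I F A B y := by
  unfold pot potv alive
  rw [eq_sub_iff_add_eq, ← sum_filter_add_sum_filter_not (I.filter fun i => Disjoint (F i) B)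
    (fun i => y ∈ F i), add_comm]
  congr 1
  apply sum_congr _ fun _ _ => rfl
  ext i
  simp only [mem_filter, disjoint_union_right, disjoint_singleton_right]
  tauto

/-- what is lost in one round -/
lemma potv_insert_le {A B : Finset V} {x y : V} (hk : ∀ i ∈ I, (F i).card = k) (hxA : x ∉ A)
    (hyA : y ∉ A) (hne : x ≠ y) :
    potv I F (insert x A) B y ≤ potv I F A B y + 2 ^ (k - 2) * dg I F x y := by
  unfold potv
  have h1 : ∀ i ∈ (alive I F B).filter (fun i => y ∈ F i), (2 : ℝ) ^ (F i ∩ insert x A).card ≤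
      2 ^ (F i ∩ A).card + (if x ∈ F i then 2 ^ (k - 2) else 0) := by
    intro i hi
    rw [mem_filter] at hi
    have hiI : i ∈ I := (mem_filter.1 hi.1).1
    split_ifs with h
    · have e1 : F i ∩ insert x A = insert x (F i ∩ A) := by
        ext z; simp only [mem_inter, mem_insert]
        constructor
        · rintro ⟨h1, h2 | h2⟩
          · exact Or.inl h2
          · exact Or.inr ⟨h1, h2⟩
        · rintro (h1 | ⟨h1, h2⟩)
          · rw [h1]; exact ⟨h, Or.inl rfl⟩
          · exact ⟨h1, Or.inr h2⟩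
      rw [e1, card_insert_of_notMem (fun h' => hxA (mem_inter.1 h').2), pow_succ]
      have h2 : (F i ∩ A).card ≤ k - 2 := by
        have h3 : F i ∩ A ⊆ ((F i).erase x).erase y := by
          intro z hz
          rw [mem_inter] at hz
          rw [mem_erase, mem_erase]
          refine ⟨?_, ?_, hz.1⟩
          · rintro rfl; exact hyA hz.2
          · rintro rfl; exact hxA hz.2
        refine (card_le_card h3).trans ?_
        rw [card_erase_of_mem (mem_erase.2 ⟨hne.symm, hi.2⟩), card_erase_of_mem h, hk i hiI]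
        omega
      have h4 : (2 : ℝ) ^ (F i ∩ A).card ≤ 2 ^ (k - 2) := pow_le_pow_right₀ (by norm_num) h2
      linarith
    · rw [add_zero]
      apply le_of_eq
      congr 2
      ext z; simp only [mem_inter, mem_insert]
      constructor
      · rintro ⟨h1, h2 | h2⟩
        · rw [h2] at h1; exact absurd h1 h
        · exact ⟨h1, h2⟩
      · rintro ⟨h1, h2⟩
        exact ⟨h1, Or.inr h2⟩
  refine (sum_le_sum h1).trans ?_
  rw [sum_add_distrib]
  apply add_le_add le_rfl
  rw [← sum_filter, sum_const, nsmul_eq_mul, mul_comm]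
  apply mul_le_mul_of_nonneg_left _ (by positivity)
  unfold dg
  have : ((alive I F B).filter (fun i => y ∈ F i)).filter (fun i => x ∈ F i) ⊆
      I.filter (fun i => x ∈ F i ∧ y ∈ F i) := by
    intro i hi
    simp only [alive, mem_filter] at hi ⊢
    exact ⟨hi.1.1.1, hi.2, hi.1.2⟩
  exact_mod_cast card_le_card this

/-- Maker's strategy -/
theorem maker (hk : ∀ i ∈ I, (F i).card = k) : ∀ (N : ℕ) (A B : Finset V), Disjoint A B →
    (univ \ (A ∪ B)).card ≤ N →
    2 ^ (k - 2) * loss I F (univ \ (A ∪ B)) < pot I F A B →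
    Force 1 (fun A => ∃ i ∈ I, F i ⊆ A) N A B := by
  intro N
  induction N with
  | zero =>
    intro A B _ hU hpot
    have hU0 : univ \ (A ∪ B) = ∅ := card_eq_zero.1 (Nat.le_zero.1 hU)
    have h1 : 0 < pot I F A B := by
      refine lt_of_le_of_lt ?_ hpot
      unfold loss
      positivity
    unfold pot at h1
    have h2 : (alive I F B).Nonempty := by
      by_contra hcon
      rw [not_nonempty_iff_eq_empty] at hcon
      rw [hcon, sum_empty] at h1
      exact lt_irrefl _ h1
    obtain ⟨i, hi⟩ := h2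
    unfold alive at hi
    rw [mem_filter] at hi
    refine ⟨i, hi.1, ?_⟩
    intro z hz
    have hzAB : z ∈ A ∪ B := by
      by_contra hcon
      have : z ∈ univ \ (A ∪ B) := mem_sdiff.2 ⟨mem_univ _, hcon⟩
      rw [hU0] at this
      exact notMem_empty _ this
    rcases mem_union.1 hzAB with h | h
    · exact h
    · exact absurd h (disjoint_left.1 hi.2 hz)
  | succ N ih =>
    intro A B hAB hU hpot
    by_cases hne : (univ \ (A ∪ B)).Nonempty
    swap
    · rw [not_nonempty_iff_eq_empty] at hne
      have h0 : (univ \ (A ∪ B)).card ≤ N := by rw [hne]; simp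
      exact force_succ N A B (ih A B hAB h0 hpot)
    · obtain ⟨x, hx, hmax⟩ := exists_max_image (univ \ (A ∪ B)) (potv I F A B) hne
      have hx' := hx
      rw [mem_sdiff, mem_union] at hx'
      push Not at hx'
      obtain ⟨_, hxA, hxB⟩ := hx'
      right
      refine ⟨x, by rw [mem_union]; push Not; exact ⟨hxA, hxB⟩, ?_⟩
      intro Y hY hYc
      have hpv : 0 ≤ potv I F A B x := sum_nonneg fun _ _ => by positivity
      rcases Nat.lt_or_ge 0 Y.card with h1 | h1
      · have h2 : Y.card = 1 := by omega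
        obtain ⟨y, rfl⟩ := card_eq_one.1 h2
        rw [disjoint_singleton_left, mem_union, mem_insert] at hY
        push Not at hY
        obtain ⟨⟨hyx, hyA⟩, hyB⟩ := hY
        have hy : y ∈ univ \ (A ∪ B) := by
          rw [mem_sdiff, mem_union]
          push Not
          exact ⟨mem_univ _, hyA, hyB⟩
        have hset : univ \ (insert x A ∪ (B ∪ {y})) = ((univ \ (A ∪ B)).erase x).erase y := by
          ext z
          simp only [mem_sdiff, mem_univ, true_and, mem_union, mem_insert, mem_singleton, mem_erase]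
          tauto
        apply ih
        · rw [disjoint_union_right, disjoint_insert_left, disjoint_insert_left]
          exact ⟨⟨hxB, hAB⟩, by simpa using hyx.symm, by simpa using hyA⟩
        · rw [hset, card_erase_of_mem (mem_erase.2 ⟨hyx, hy⟩), card_erase_of_mem hx]
          omega
        · rw [hset, pot_union, pot_insert I F hxA]
          have h3 := potv_insert_le I F k (B := B) hk hxA hyA hyx.symm
          have h4 := hmax y hy
          have h5 := loss_pair I F hx hy hyx.symm
          have h6 : (0 : ℝ) < 2 ^ (k - 2) := by positivity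
          nlinarith
      · have h2 : Y = ∅ := card_eq_zero.1 (by omega)
        subst h2
        rw [union_empty]
        have hset : univ \ (insert x A ∪ B) = (univ \ (A ∪ B)).erase x := by
          ext z
          simp only [mem_sdiff, mem_univ, true_and, mem_union, mem_insert, mem_erase]
          tauto
        apply ih
        · rw [disjoint_insert_left]; exact ⟨hxB, hAB⟩
        · rw [hset, card_erase_of_mem hx]
          omega
        · rw [hset, pot_insert I F hxA]
          have h5 := loss_mono I F (erase_subset x (univ \ (A ∪ B)))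
          have h6 : (0 : ℝ) < 2 ^ (k - 2) := by positivity
          nlinarith

end Maker

variable {G : SimpleGraph V}

/-- a family of dominating sets of size `k` with small pair degrees bounds `s_MB` -/
theorem sizeMB_le {ι : Type} (I : Finset ι) (F : ι → Finset V) (k : ℕ)
    (hk : ∀ i ∈ I, (F i).card = k) (hdom : ∀ i ∈ I, IsDominating G (F i))
    (h : 2 ^ (k - 2) * loss I F univ < (I.card : ℝ)) : sizeMB G 1 ≤ (k : ℕ∞) := by
  have h1 : pot I F ∅ ∅ = (I.card : ℝ) := by
    unfold pot alive
    simp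
  have h2 := maker I F k hk (Fintype.card V) ∅ ∅ (disjoint_empty_left _) (by
    simp) (by
    rw [h1]
    simpa using h)
  unfold sizeMB
  refine iInf_le_of_le k (iInf_le_of_le ⟨Fintype.card V, ?_⟩ le_rfl)
  refine force_win ?_ _ _ _ h2
  rintro A ⟨i, hi, hiA⟩
  exact ⟨F i, hiA, (hk i hi).le, hdom i hi⟩

lemma one_round' {γ : ℕ} (hγ : ∀ D : Finset V, IsDominating G D → γ ≤ D.card) {A B : Finset V}
    (hA : A.card + 1 ≤ γ) (h : Force 1 (fun A => ∃ D ⊆ A, IsDominating G D) 1 A B) :
    A.card + 1 = γ ∧ ∃ v, v ∉ A ∧ v ∉ B ∧ IsDominating G (insert v A) := by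
  rcases h with ⟨D, hD, h⟩ | ⟨x, hx, h⟩
  · have := hγ D h
    have := card_le_card hD
    omega
  · obtain ⟨D, hD, h1⟩ := h ∅ (disjoint_empty_left _) (by simp)
    have h2 := hγ _ h1
    have h3 := card_le_card hD
    rw [mem_union] at hx
    push Not at hx
    rw [card_insert_of_notMem hx.1] at h3
    exact ⟨by omega, x, hx.1, hx.2, h1.mono hD⟩

lemma twins_of_force {γ : ℕ} (hγ : ∀ D : Finset V, IsDominating G D → γ ≤ D.card) :
    ∀ (t : ℕ) (A B : Finset V), A.card + t + 2 ≤ γ →
      Force 1 (fun A => ∃ D ⊆ A, IsDominating G D) (t + 2) A B → Twins G γ := by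
  intro t
  induction t with
  | zero =>
    intro A B hA h
    rcases h with ⟨D, hD, h⟩ | ⟨x, hx, h⟩
    · have := hγ D h
      have := card_le_card hD
      omega
    · rw [mem_union] at hx
      push Not at hx
      have hc : (insert x A).card = A.card + 1 := card_insert_of_notMem hx.1
      have h1 : Force 1 (fun A => ∃ D ⊆ A, IsDominating G D) 1 (insert x A) (B ∪ ∅) :=
        h ∅ (disjoint_empty_left _) (by simp)
      obtain ⟨e1, v, hv1, hv2, hv3⟩ := one_round' hγ (by omega) h1
      have hvB : v ∉ B := fun hh => hv2 (mem_union_left _ hh)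
      have h2 : Force 1 (fun A => ∃ D ⊆ A, IsDominating G D) 1 (insert x A) (B ∪ {v}) := h {v} (by
        rw [disjoint_singleton_left, mem_union]
        push Not
        exact ⟨hv1, hvB⟩) (by simp)
      obtain ⟨e2, w, hw1, hw2, hw3⟩ := one_round' hγ (by omega) h2
      refine ⟨insert x A, v, w, e1, hv1, hw1, ?_, hv3, hw3⟩
      rintro rfl
      exact hw2 (mem_union_right _ (mem_singleton_self _))
  | succ t ih =>
    intro A B hA h
    rcases h with ⟨D, hD, h⟩ | ⟨x, hx, h⟩
    · have := hγ D h
      have := card_le_card hD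
      omega
    · rw [mem_union] at hx
      push Not at hx
      have hc : (insert x A).card = A.card + 1 := card_insert_of_notMem hx.1
      exact ih (insert x A) (B ∪ ∅) (by omega) (h ∅ (disjoint_empty_left _) (by simp))

/-- the time is more than `k` -/
theorem lt_timeMB {k : ℕ} (hk : 2 ≤ k) (hV : k + 1 ≤ Fintype.card V)
    (h1 : ∃ D : Finset V, D.card = k ∧ IsDominating G D) (h2 : ¬ Twins G k) :
    (k : ℕ∞) < timeMB G 1 := by
  have h3 := domNumber_eq (by omega) hV h1 h2
  have key : ∀ t : ℕ, Force 1 (fun A => ∃ D ⊆ A, IsDominating G D) t ∅ ∅ → k + 1 ≤ t := by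
    intro t ht
    by_contra hcon
    have h4 : Force 1 (fun A => ∃ D ⊆ A, IsDominating G D) k ∅ ∅ := force_mono (by omega) ht
    obtain ⟨t', rfl⟩ : ∃ t', k = t' + 2 := ⟨k - 2, by omega⟩
    exact h2 (twins_of_force (fun D hD => h3 ▸ domNumber_le hD) t' ∅ ∅ (by simp) h4)
  have h5 : ((k + 1 : ℕ) : ℕ∞) ≤ timeMB G 1 := by
    unfold timeMB
    refine le_iInf fun t => le_iInf fun ht => ?_
    exact_mod_cast key t ht
  refine lt_of_lt_of_le ?_ h5
  exact_mod_cast Nat.lt_succ_self k

end Q299.MBD
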