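import Pool.Agent.Q299.MBD.Prob

/-!
# Transversals: the family of sets used in the second moment method, `p = 3 / 4`,
`n = k * (k * 4 ^ k)`
-/

set_option linter.unusedSectionVars false

namespace Q299.MBD

open Finset

open scoped Classical

open Pool.Agent.W166.Gnp Q299.Dep

/-- transversal -/
def tr {k m : ℕ} (φ : Fin k → Fin m) : Finset (Fin (k * m)) :=
  univ.image (fun i => finProdFinEquiv (i, φ i))

lemma card_tr {k m : ℕ} (φ : Fin k → Fin m) : (tr φ).card = k := by
  unfold tr
  rw [card_image_of_injective, card_univ, Fintype.card_fin]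
  intro i i' h
  have := finProdFinEquiv.injective h
  simpa using congrArg Prod.fst this

lemma card_tr_inter {k m : ℕ} (φ ψ : Fin k → Fin m) :
    (tr φ ∩ tr ψ).card = (univ.filter (fun i => φ i = ψ i)).card := by
  have : tr φ ∩ tr ψ = (univ.filter (fun i => φ i = ψ i)).image
      (fun i => finProdFinEquiv (i, φ i)) := by
    ext v
    simp only [tr, mem_inter, mem_image, mem_univ, true_and, mem_filter]
    constructor
    · rintro ⟨⟨i, rfl⟩, ⟨j, hj⟩⟩
      have h := finProdFinEquiv.injective hj
      simp only [Prod.mk.injEq] at h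
      obtain ⟨rfl, h2⟩ := h
      exact ⟨j, h2.symm, rfl⟩
    · rintro ⟨i, hi, rfl⟩
      exact ⟨⟨i, rfl⟩, ⟨i, by rw [hi]⟩⟩
  rw [this, card_image_of_injective]
  intro i i' h
  have := finProdFinEquiv.injective h
  simpa using congrArg Prod.fst this

lemma card_tr_union {k m : ℕ} (φ ψ : Fin k → Fin m) :
    (tr φ ∪ tr ψ).card = 2 * k - (univ.filter (fun i => φ i = ψ i)).card := by
  have h := card_union_add_card_inter (tr φ) (tr ψ)
  rw [card_tr, card_tr, card_tr_inter] at h
  omega

/-- exponential moment of the number of agreements -/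
lemma sum_pow_agree {k m : ℕ} (hm : 1 ≤ m) (φ : Fin k → Fin m) (x : ℝ) :
    ∑ ψ : Fin k → Fin m, x ^ (univ.filter (fun i => φ i = ψ i)).card = ((m : ℝ) - 1 + x) ^ k := by
  have h1 : ∀ ψ : Fin k → Fin m, x ^ (univ.filter (fun i => φ i = ψ i)).card =
      ∏ i, (if φ i = ψ i then x else 1) := by
    intro ψ
    rw [prod_ite]
    simp
  simp_rw [h1]
  have h2 := Finset.prod_univ_sum (fun _ : Fin k => (univ : Finset (Fin m)))
    (fun i v => if φ i = v then x else 1)
  rw [Fintype.piFinset_univ] at h2
  rw [← h2]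
  have h3 : ∀ i : Fin k, ∑ v : Fin m, (if φ i = v then x else 1) = (m : ℝ) - 1 + x := by
    intro i
    rw [← add_sum_erase univ _ (mem_univ (φ i)), if_pos rfl]
    have h4 : ∑ v ∈ univ.erase (φ i), (if φ i = v then x else 1) = (m : ℝ) - 1 := by
      rw [sum_congr rfl (fun v hv => if_neg (ne_of_mem_erase hv).symm), sum_const,
        card_erase_of_mem (mem_univ _), card_univ, Fintype.card_fin, nsmul_eq_mul,
        Nat.cast_sub hm]
      simp
    rw [h4]
    ring
  rw [prod_congr rfl (fun i _ => h3 i), prod_const, card_univ, Fintype.card_fin]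

lemma four_pow_le {j k : ℕ} (hj : 1 ≤ j) (hjk : j ≤ k) : k * 4 ^ j ≤ j * 4 ^ k := by
  induction k, hjk using Nat.le_induction with
  | base => exact le_rfl
  | succ k hk ih =>
    calc (k + 1) * 4 ^ j ≤ (4 * k) * 4 ^ j := Nat.mul_le_mul_right _ (by omega)
      _ = 4 * (k * 4 ^ j) := by ring
      _ ≤ 4 * (j * 4 ^ k) := Nat.mul_le_mul_left _ ih
      _ = _ := by ring

end Q299.MBD
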