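import Pool.Agent.Q299.MBD.SizeGame
import Pool.Agent.Q299.MBD.Trans

/-!
# Time versus size: probability estimates for `p = 7 / 8`, `n = k * (2 * k * 8 ^ k)`
-/

set_option linter.unusedSectionVars false

namespace Q299.MBD

open Finset Filter Topology

open scoped Classical

open Pool.Agent.W166.Gnp Q299.Dep

/-- `8 ^ (-k)` -/
noncomputable def e8 (k : ℕ) : ℝ := (1 / 8) ^ k

/-- size of a class -/
def m8 (k : ℕ) : ℕ := 2 * k * 8 ^ k

/-- number of vertices -/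
def n8 (k : ℕ) : ℕ := k * (2 * k * 8 ^ k)

lemma e8_pos (k : ℕ) : 0 < e8 k := by unfold e8; positivity

lemma e8_le {k : ℕ} (hk : 1 ≤ k) : e8 k ≤ 1 / 8 := by
  unfold e8
  calc (1 / 8 : ℝ) ^ k ≤ (1 / 8) ^ 1 := pow_le_pow_of_le_one (by norm_num) (by norm_num) hk
    _ = _ := pow_one _

lemma e8_mul (k : ℕ) : e8 k * 8 ^ k = 1 := by
  unfold e8
  rw [← mul_pow]
  norm_num

lemma n8_cast (k : ℕ) : ((n8 k : ℕ) : ℝ) = 2 * (k : ℝ) ^ 2 * 8 ^ k := by
  unfold n8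
  push_cast
  ring

lemma m8_cast (k : ℕ) : ((m8 k : ℕ) : ℝ) = 2 * (k : ℝ) * 8 ^ k := by
  unfold m8
  push_cast
  ring

lemma n8_eq (k : ℕ) : ((n8 k : ℕ) : ℝ) = k * (m8 k : ℝ) := by
  rw [n8_cast, m8_cast]
  ring

lemma e8_n8 (k : ℕ) : e8 k * (n8 k : ℝ) = 2 * (k : ℝ) ^ 2 := by
  rw [n8_cast]
  calc e8 k * (2 * (k : ℝ) ^ 2 * 8 ^ k) = 2 * (k : ℝ) ^ 2 * (e8 k * 8 ^ k) := by ring
    _ = _ := by rw [e8_mul, mul_one]

lemma le_n8 {k : ℕ} (hk : 1 ≤ k) : 16 * k ≤ n8 k := by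
  unfold n8
  have h1 : 8 ^ 1 ≤ 8 ^ k := Nat.pow_le_pow_right (by norm_num) hk
  have h2 : 2 * 8 ≤ 2 * k * 8 ^ k := Nat.mul_le_mul (by omega) (by simpa using h1)
  calc 16 * k = k * (2 * 8) := by ring
    _ ≤ _ := Nat.mul_le_mul_left k h2

lemma m8_pos {k : ℕ} (hk : 1 ≤ k) : 1 ≤ m8 k := by
  unfold m8
  have h1 : 1 ≤ 8 ^ k := Nat.one_le_pow _ _ (by norm_num)
  calc 1 ≤ 2 * k := by omega
    _ = 2 * k * 1 := by ring
    _ ≤ _ := Nat.mul_le_mul_left _ h1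

lemma eight_pow_le {j k : ℕ} (hj : 1 ≤ j) (hjk : j ≤ k) : k * 8 ^ j ≤ j * 8 ^ k := by
  induction k, hjk using Nat.le_induction with
  | base => exact le_rfl
  | succ k hk ih =>
    calc (k + 1) * 8 ^ j ≤ (8 * k) * 8 ^ j := Nat.mul_le_mul_right _ (by omega)
      _ = 8 * (k * 8 ^ j) := by ring
      _ ≤ 8 * (j * 8 ^ k) := Nat.mul_le_mul_left _ ih
      _ = _ := by ring

theorem ratio_gen {k j : ℕ} (hk : 1 ≤ k) (hj : j ≤ k) :
    (1 - (1 - 7 / 8 : ℝ) ^ k - (1 - 7 / 8) ^ k + (1 - 7 / 8) ^ (2 * k - j)) ^ (n8 k - (2 * k - j)) ≤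
      ((1 - e8 k) ^ (n8 k - k)) ^ 2 * (((1 - e8 k) ^ (2 * k))⁻¹ *
        Real.exp (2 * (k : ℝ) ^ 2 * (e8 k * 8 ^ j) * (1 + 4 * e8 k))) := by
  set ε := e8 k with hε
  have hε0 : 0 < ε := e8_pos k
  have hε8 : ε ≤ 1 / 8 := e8_le hk
  have hkr : (1 : ℝ) ≤ k := by exact_mod_cast hk
  have e1 : (1 - 7 / 8 : ℝ) ^ k = ε := by rw [hε]; unfold e8; norm_num
  have e2 : (1 - 7 / 8 : ℝ) ^ (2 * k - j) = ε ^ 2 * 8 ^ j := by
    have h1 : (1 - 7 / 8 : ℝ) ^ (2 * k - j) * (1 / 8) ^ j = ε ^ 2 := by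
      rw [show (1 - 7 / 8 : ℝ) = 1 / 8 by norm_num, ← pow_add, Nat.sub_add_cancel (by omega), hε]
      unfold e8
      rw [← pow_mul, mul_comm]
    rw [← h1, mul_assoc, ← mul_pow]
    norm_num
  rw [e1, e2]
  set b := 1 - ε with hb
  have hb0 : 0 < b := by linarith
  have hb1 : b ≤ 1 := by linarith
  have hF : 1 - ε - ε + ε ^ 2 * 8 ^ j ≤ b ^ 2 * Real.exp (ε ^ 2 * 8 ^ j / b ^ 2) := by
    have h1 := Real.add_one_le_exp (ε ^ 2 * 8 ^ j / b ^ 2)
    have h2 : b ^ 2 * (ε ^ 2 * 8 ^ j / b ^ 2 + 1) ≤ b ^ 2 * Real.exp (ε ^ 2 * 8 ^ j / b ^ 2) :=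
      mul_le_mul_of_nonneg_left h1 (sq_nonneg b)
    have h3 : b ^ 2 * (ε ^ 2 * 8 ^ j / b ^ 2 + 1) = ε ^ 2 * 8 ^ j + b ^ 2 := by
      field_simp
    have h4 : b ^ 2 = 1 - ε - ε + ε ^ 2 := by rw [hb]; ring
    nlinarith [sq_nonneg ε]
  have hF0 : 0 ≤ 1 - ε - ε + ε ^ 2 * 8 ^ j := by
    have : 0 ≤ ε ^ 2 * 8 ^ j := by positivity
    linarith
  set N := n8 k - (2 * k - j) with hN
  have hnk := le_n8 hk
  have hbN : b ^ (2 * N) ≤ (b ^ (n8 k - k)) ^ 2 * (b ^ (2 * k))⁻¹ := by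
    rw [← div_eq_mul_inv, le_div_iff₀ (by positivity), ← pow_add, ← pow_mul]
    apply pow_le_pow_of_le_one hb0.le hb1
    omega
  have hexp : (N : ℝ) * (ε ^ 2 * 8 ^ j / b ^ 2) ≤ 2 * (k : ℝ) ^ 2 * (ε * 8 ^ j) * (1 + 4 * ε) := by
    have h1 : (N : ℝ) ≤ (n8 k : ℝ) := by exact_mod_cast Nat.sub_le _ _
    have h2 : (n8 k : ℝ) * (ε ^ 2 * 8 ^ j) = 2 * (k : ℝ) ^ 2 * (ε * 8 ^ j) := by
      have := e8_n8 k
      calc (n8 k : ℝ) * (ε ^ 2 * 8 ^ j) = (ε * (n8 k : ℝ)) * (ε * 8 ^ j) := by ring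
        _ = _ := by rw [this]
    have h8 : 1 / b ^ 2 ≤ 1 + 4 * ε := by
      rw [div_le_iff₀ (by positivity), hb]
      nlinarith [mul_pos hε0 hε0, mul_pos (mul_pos hε0 hε0) hε0]
    calc (N : ℝ) * (ε ^ 2 * 8 ^ j / b ^ 2) ≤ (n8 k : ℝ) * (ε ^ 2 * 8 ^ j / b ^ 2) :=
          mul_le_mul_of_nonneg_right h1 (by positivity)
      _ = ((n8 k : ℝ) * (ε ^ 2 * 8 ^ j)) * (1 / b ^ 2) := by ring
      _ ≤ _ := by
          rw [h2]
          exact mul_le_mul_of_nonneg_left h8 (by positivity)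
  calc (1 - ε - ε + ε ^ 2 * 8 ^ j) ^ N ≤ (b ^ 2 * Real.exp (ε ^ 2 * 8 ^ j / b ^ 2)) ^ N :=
        pow_le_pow_left₀ hF0 hF N
    _ = b ^ (2 * N) * Real.exp ((N : ℝ) * (ε ^ 2 * 8 ^ j / b ^ 2)) := by
        rw [mul_pow, ← pow_mul, Real.exp_nat_mul]
    _ ≤ ((b ^ (n8 k - k)) ^ 2 * (b ^ (2 * k))⁻¹) *
          Real.exp (2 * (k : ℝ) ^ 2 * (ε * 8 ^ j) * (1 + 4 * ε)) :=
        mul_le_mul hbN (Real.exp_le_exp.2 hexp) (Real.exp_pos _).le (by positivity)
    _ = _ := by ring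

/-- constants -/
noncomputable def cA (k : ℕ) : ℝ := ((1 - e8 k) ^ (2 * k))⁻¹ * Real.exp (12 * ((k : ℝ) ^ 2 * e8 k))

/-- constants -/
noncomputable def cB (k : ℕ) : ℝ := ((1 - e8 k) ^ (2 * k))⁻¹ * Real.exp (600 * ((k : ℝ) ^ 2 * e8 k))

lemma expA {k j : ℕ} (hk : 1 ≤ k) (hj : j ≤ k) :
    2 * (k : ℝ) ^ 2 * (e8 k * 8 ^ j) * (1 + 4 * e8 k) ≤ 12 * ((k : ℝ) ^ 2 * e8 k) + j * (2 * k) := by
  set ε := e8 k with hε
  have hε0 : 0 < ε := e8_pos k
  have hε8 : ε ≤ 1 / 8 := e8_le hk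
  have hkr : (1 : ℝ) ≤ k := by exact_mod_cast hk
  have hjr : (j : ℝ) ≤ k := by exact_mod_cast hj
  have hj0 : (0 : ℝ) ≤ j := Nat.cast_nonneg _
  have h1 : (k : ℝ) * (ε * 8 ^ j) ≤ j + k * ε := by
    rcases Nat.eq_zero_or_pos j with h0 | h0
    · rw [h0]; simp
    · have h4 : ((k * 8 ^ j : ℕ) : ℝ) ≤ ((j * 8 ^ k : ℕ) : ℝ) := by exact_mod_cast eight_pow_le h0 hj
      push_cast at h4
      have h5 : (k : ℝ) * (ε * 8 ^ j) ≤ j := by
        calc (k : ℝ) * (ε * 8 ^ j) = ε * (k * 8 ^ j) := by ring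
          _ ≤ ε * (j * 8 ^ k) := mul_le_mul_of_nonneg_left h4 hε0.le
          _ = j * (ε * 8 ^ k) := by ring
          _ = j := by rw [hε, e8_mul, mul_one]
      have : 0 ≤ (k : ℝ) * ε := by positivity
      linarith
  calc 2 * (k : ℝ) ^ 2 * (ε * 8 ^ j) * (1 + 4 * ε) = (2 * k * (1 + 4 * ε)) * (k * (ε * 8 ^ j)) := by
        ring
    _ ≤ (2 * k * (1 + 4 * ε)) * (j + k * ε) := mul_le_mul_of_nonneg_left h1 (by positivity)
    _ ≤ _ := by
        have h2 : (k : ℝ) * j * ε ≤ (k : ℝ) ^ 2 * ε := by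
          have : (k : ℝ) * j ≤ (k : ℝ) ^ 2 := by nlinarith
          exact mul_le_mul_of_nonneg_right this hε0.le
        have h3 : (k : ℝ) ^ 2 * ε * ε ≤ (k : ℝ) ^ 2 * ε * (1 / 8) :=
          mul_le_mul_of_nonneg_left hε8 (by positivity)
        have h4 : 0 ≤ (k : ℝ) ^ 2 * ε := by positivity
        nlinarith

lemma expB {k j : ℕ} (hk : 3 ≤ k) (hj2 : 2 ≤ j) (hj : j ≤ k) :
    2 * (k : ℝ) ^ 2 * (e8 k * 8 ^ j) * (1 + 4 * e8 k) ≤
      600 * ((k : ℝ) ^ 2 * e8 k) + ((j - 2 : ℕ) : ℝ) * (2 * k + 12) := by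
  set ε := e8 k with hε
  have hε0 : 0 < ε := e8_pos k
  have hε8 : ε ≤ 1 / 8 := e8_le (by omega)
  have hkr : (3 : ℝ) ≤ k := by exact_mod_cast hk
  obtain ⟨i, rfl⟩ : ∃ i, j = i + 2 := ⟨j - 2, by omega⟩
  obtain ⟨l, hl⟩ : ∃ l, k = l + 2 := ⟨k - 2, by omega⟩
  have hlr : (k : ℝ) = l + 2 := by rw [hl]; push_cast; ring
  have hl1 : (1 : ℝ) ≤ l := by linarith
  have hil : (i : ℝ) ≤ l := by
    have : i ≤ l := by omega
    exact_mod_cast this
  have hi0 : (0 : ℝ) ≤ i := Nat.cast_nonneg _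
  have hsub : ((i + 2 - 2 : ℕ) : ℝ) = i := by rw [Nat.add_sub_cancel]
  rw [hsub]
  have h1 : (l : ℝ) * (ε * 8 ^ (i + 2)) ≤ i + 64 * (l * ε) := by
    rcases Nat.eq_zero_or_pos i with h0 | h0
    · rw [h0]
      simp only [Nat.cast_zero, zero_add]
      apply le_of_eq
      ring
    · have h4 : ((l * 8 ^ i : ℕ) : ℝ) ≤ ((i * 8 ^ l : ℕ) : ℝ) := by
        exact_mod_cast eight_pow_le h0 (by omega)
      push_cast at h4
      have h6 : ε * 8 ^ l * 64 = 1 := by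
        have := e8_mul k
        rw [hl, pow_add] at this
        rw [hε, hl]
        linarith
      have h5 : (l : ℝ) * (ε * 8 ^ (i + 2)) ≤ i := by
        calc (l : ℝ) * (ε * 8 ^ (i + 2)) = (ε * 64) * (l * 8 ^ i) := by ring
          _ ≤ (ε * 64) * (i * 8 ^ l) := mul_le_mul_of_nonneg_left h4 (by positivity)
          _ = i * (ε * 8 ^ l * 64) := by ring
          _ = i := by rw [h6, mul_one]
      have : 0 ≤ (l : ℝ) * ε := by positivity
      linarith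
  have h2 : 2 * (k : ℝ) ^ 2 ≤ (2 * k + 12) * l := by rw [hlr]; nlinarith
  have h3 : 0 ≤ ε * 8 ^ (i + 2) * (1 + 4 * ε) := by positivity
  calc 2 * (k : ℝ) ^ 2 * (ε * 8 ^ (i + 2)) * (1 + 4 * ε)
      = (2 * (k : ℝ) ^ 2) * (ε * 8 ^ (i + 2) * (1 + 4 * ε)) := by ring
    _ ≤ ((2 * k + 12) * l) * (ε * 8 ^ (i + 2) * (1 + 4 * ε)) := mul_le_mul_of_nonneg_right h2 h3
    _ = ((2 * k + 12) * (1 + 4 * ε)) * (l * (ε * 8 ^ (i + 2))) := by ring
    _ ≤ ((2 * k + 12) * (1 + 4 * ε)) * (i + 64 * (l * ε)) :=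
        mul_le_mul_of_nonneg_left h1 (by positivity)
    _ ≤ _ := by
        have a1 : (2 * (k : ℝ) + 12) ≤ 6 * k := by linarith
        have a2 : (l : ℝ) ≤ k := by linarith
        have a3 : (i : ℝ) ≤ k := by linarith
        have a4 : (1 + 4 * ε) ≤ 3 / 2 := by linarith
        have a5 : (2 * (k : ℝ) + 12) * (4 * ε) * i ≤ (6 * k) * (4 * ε) * k := by gcongr
        have a6 : (2 * (k : ℝ) + 12) * (1 + 4 * ε) * (64 * (l * ε)) ≤
            (6 * k) * (3 / 2) * (64 * (k * ε)) := by gcongr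
        nlinarith

theorem ratioA {k j : ℕ} (hk : 1 ≤ k) (hj : j ≤ k) :
    (1 - (1 - 7 / 8 : ℝ) ^ k - (1 - 7 / 8) ^ k + (1 - 7 / 8) ^ (2 * k - j)) ^ (n8 k - (2 * k - j)) ≤
      ((1 - e8 k) ^ (n8 k - k)) ^ 2 * (cA k * Real.exp (2 * k) ^ j) := by
  refine (ratio_gen hk hj).trans ?_
  have hb : 0 < 1 - e8 k := by linarith [e8_le hk]
  apply mul_le_mul_of_nonneg_left _ (sq_nonneg _)
  have e : cA k * Real.exp (2 * k) ^ j = ((1 - e8 k) ^ (2 * k))⁻¹ *
      (Real.exp (12 * ((k : ℝ) ^ 2 * e8 k)) * Real.exp (2 * k) ^ j) := by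
    unfold cA
    ring
  rw [e]
  apply mul_le_mul_of_nonneg_left _ (by positivity)
  rw [← Real.exp_nat_mul, ← Real.exp_add]
  exact Real.exp_le_exp.2 (expA hk hj)

theorem ratioB {k j : ℕ} (hk : 3 ≤ k) (hj2 : 2 ≤ j) (hj : j ≤ k) :
    (1 - (1 - 7 / 8 : ℝ) ^ k - (1 - 7 / 8) ^ k + (1 - 7 / 8) ^ (2 * k - j)) ^ (n8 k - (2 * k - j)) ≤
      ((1 - e8 k) ^ (n8 k - k)) ^ 2 * (cB k * Real.exp (2 * k + 12) ^ (j - 2)) := by
  refine (ratio_gen (by omega) hj).trans ?_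
  have hb : 0 < 1 - e8 k := by linarith [e8_le (k := k) (by omega)]
  apply mul_le_mul_of_nonneg_left _ (sq_nonneg _)
  have e : cB k * Real.exp (2 * k + 12) ^ (j - 2) = ((1 - e8 k) ^ (2 * k))⁻¹ *
      (Real.exp (600 * ((k : ℝ) ^ 2 * e8 k)) * Real.exp (2 * k + 12) ^ (j - 2)) := by
    unfold cB
    ring
  rw [e]
  apply mul_le_mul_of_nonneg_left _ (by positivity)
  rw [← Real.exp_nat_mul, ← Real.exp_add]
  exact Real.exp_le_exp.2 (expB hk hj2 hj)

/-- the number of dominating members of the family is at least half its mean -/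
theorem second_moment_half {n : ℕ} {p : ℝ} (h0 : 0 ≤ p) (h1 : p ≤ 1) {ι : Type} [Fintype ι]
    (D : ι → Finset (Fin n)) (P1 B : ℝ) (hP1 : 0 < P1) (hM : 0 < Fintype.card ι)
    (hD : ∀ i, Ex (allE n) p (domI (D i)) = P1)
    (hB : ∑ i, ∑ j, Ex (allE n) p (fun S => domI (D i) S * domI (D j) S) ≤
      ((Fintype.card ι : ℝ) * P1) ^ 2 * B) :
    Pr (allE n) p (fun S => ∑ i, domI (D i) S ≤ (Fintype.card ι : ℝ) * P1 / 2) ≤ 4 * (B - 1) := by
  set M : ℝ := (Fintype.card ι : ℝ) with hMdef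
  have hM0 : 0 < M := by rw [hMdef]; exact_mod_cast hM
  set c : ℝ := 1 / (M * P1) with hc
  have hMP : 0 < M * P1 := mul_pos hM0 hP1
  have key : ∀ S, S ⊆ allE n → (fun S => 4 * (1 - c * ∑ i, domI (D i) S) ^ 2) S =
      (4 + (-(8 * c)) * ∑ i, domI (D i) S) + (4 * c ^ 2) * ∑ i, ∑ j, domI (D i) S * domI (D j) S := by
    intro S _
    simp only
    rw [← sum_mul_sum]
    ring
  have e1 : Ex (allE n) p (fun S => 4 * (1 - c * ∑ i, domI (D i) S) ^ 2) =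
      4 + (-(8 * c)) * (M * P1) + (4 * c ^ 2) *
        ∑ i, ∑ j, Ex (allE n) p (fun S => domI (D i) S * domI (D j) S) := by
    rw [Ex_congr key, Ex_add, Ex_add, Ex_smul, Ex_smul, Ex_const]
    have e2 : Ex (allE n) p (fun S => ∑ i, domI (D i) S) = M * P1 := by
      rw [Ex_sum, sum_congr rfl (fun i _ => hD i), sum_const, card_univ, nsmul_eq_mul]
    have e3 : Ex (allE n) p (fun S => ∑ i, ∑ j, domI (D i) S * domI (D j) S) =
        ∑ i, ∑ j, Ex (allE n) p (fun S => domI (D i) S * domI (D j) S) := by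
      rw [Ex_sum]
      apply sum_congr rfl
      intro i _
      rw [Ex_sum]
    rw [e2, e3]
  have e4 : Pr (allE n) p (fun S => ∑ i, domI (D i) S ≤ M * P1 / 2) ≤
      Ex (allE n) p (fun S => 4 * (1 - c * ∑ i, domI (D i) S) ^ 2) := by
    apply Pr_le_Ex h0 h1
    · intro S _; positivity
    · intro S _ hS
      have h2 : c * ∑ i, domI (D i) S ≤ 1 / 2 := by
        calc c * ∑ i, domI (D i) S ≤ c * (M * P1 / 2) := mul_le_mul_of_nonneg_left hS (by positivity)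
          _ = 1 / 2 := by rw [hc]; field_simp
      nlinarith
  rw [e1] at e4
  have e5 : (4 * c ^ 2) * ∑ i, ∑ j, Ex (allE n) p (fun S => domI (D i) S * domI (D j) S) ≤ 4 * B := by
    calc _ ≤ (4 * c ^ 2) * ((M * P1) ^ 2 * B) := mul_le_mul_of_nonneg_left hB (by positivity)
      _ = 4 * B := by rw [hc]; field_simp
  have e6 : -(8 * c) * (M * P1) = -8 := by rw [hc]; field_simp
  rw [e6] at e4
  linarith

/-- transversals as sets of vertices -/
def tr8 {k : ℕ} (φ : Fin k → Fin (m8 k)) : Finset (Fin (n8 k)) := tr φ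

lemma card_tr8 {k : ℕ} (φ : Fin k → Fin (m8 k)) : (tr8 φ).card = k := card_tr φ

lemma card_tr8_union {k : ℕ} (φ ψ : Fin k → Fin (m8 k)) :
    (tr8 φ ∪ tr8 ψ).card = 2 * k - (univ.filter (fun i => φ i = ψ i)).card := card_tr_union φ ψ

lemma card_tr8_inter {k : ℕ} (φ ψ : Fin k → Fin (m8 k)) :
    (tr8 φ ∩ tr8 ψ).card = (univ.filter (fun i => φ i = ψ i)).card := card_tr_inter φ ψ

/-- mean number of dominating transversals -/
noncomputable def EZ (k : ℕ) : ℝ := (Fintype.card (Fin k → Fin (m8 k)) : ℝ) * (1 - e8 k) ^ (n8 k - k)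

lemma h78 : (0 : ℝ) ≤ 7 / 8 := by norm_num

lemma h78' : (7 / 8 : ℝ) ≤ 1 := by norm_num

lemma Ex_pairA {k : ℕ} (hk : 1 ≤ k) (φ ψ : Fin k → Fin (m8 k)) :
    Ex (allE (n8 k)) (7 / 8) (fun S => domI (tr8 φ) S * domI (tr8 ψ) S) ≤
      ((1 - e8 k) ^ (n8 k - k)) ^ 2 * (cA k * Real.exp (2 * k) ^
        (univ.filter (fun i => φ i = ψ i)).card) := by
  have h2 := Ex_dom_two (n := n8 k) h78 h78' (tr8 φ) (tr8 ψ)
  rw [card_tr8, card_tr8, card_tr8_union] at h2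
  exact h2.trans (ratioA hk ((card_filter_le _ _).trans (by simp)))

lemma Ex_pairB {k : ℕ} (hk : 3 ≤ k) (φ ψ : Fin k → Fin (m8 k))
    (h : 2 ≤ (univ.filter (fun i => φ i = ψ i)).card) :
    Ex (allE (n8 k)) (7 / 8) (fun S => domI (tr8 φ) S * domI (tr8 ψ) S) ≤
      ((1 - e8 k) ^ (n8 k - k)) ^ 2 * (cB k * Real.exp (2 * k + 12) ^
        ((univ.filter (fun i => φ i = ψ i)).card - 2)) := by
  have h2 := Ex_dom_two (n := n8 k) h78 h78' (tr8 φ) (tr8 ψ)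
  rw [card_tr8, card_tr8, card_tr8_union] at h2
  exact h2.trans (ratioB hk h ((card_filter_le _ _).trans (by simp)))

theorem Pr_few {k : ℕ} (hk : 1 ≤ k) :
    Pr (allE (n8 k)) (7 / 8) (fun S => ∑ φ : Fin k → Fin (m8 k), domI (tr8 φ) S ≤ EZ k / 2) ≤
      4 * (cA k * (((m8 k : ℝ) - 1 + Real.exp (2 * k)) / m8 k) ^ k - 1) := by
  have hm1 := m8_pos hk
  have hmr : (1 : ℝ) ≤ (m8 k : ℝ) := by exact_mod_cast hm1
  have hε0 := e8_pos k
  have hε8 := e8_le hk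
  have hb0 : 0 < 1 - e8 k := by linarith
  have e1 : (1 - 7 / 8 : ℝ) ^ k = e8 k := by unfold e8; norm_num
  exact second_moment_half (n := n8 k) (p := 7 / 8) h78 h78' (ι := Fin k → Fin (m8 k))
    (fun φ => tr8 φ) ((1 - e8 k) ^ (n8 k - k))
    (cA k * (((m8 k : ℝ) - 1 + Real.exp (2 * k)) / m8 k) ^ k) (by positivity)
    (by
      rw [Fintype.card_fun, Fintype.card_fin, Fintype.card_fin]
      exact Nat.pow_pos hm1)
    (by
      intro φ
      have := Ex_dom (n := n8 k) (tr8 φ) (7 / 8)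
      rw [card_tr8, e1] at this
      exact this)
    (by
      calc _ ≤ ∑ φ : Fin k → Fin (m8 k), ∑ ψ : Fin k → Fin (m8 k),
            ((1 - e8 k) ^ (n8 k - k)) ^ 2 * (cA k * Real.exp (2 * k) ^
            (univ.filter (fun i => φ i = ψ i)).card) :=
            sum_le_sum fun φ _ => sum_le_sum fun ψ _ => Ex_pairA hk φ ψ
        _ = ∑ _φ : Fin k → Fin (m8 k), ((1 - e8 k) ^ (n8 k - k)) ^ 2 * (cA k *
            ((m8 k : ℝ) - 1 + Real.exp (2 * k)) ^ k) := by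
            apply sum_congr rfl
            intro φ _
            rw [← mul_sum, ← mul_sum, sum_pow_agree hm1]
        _ = _ := by
            rw [sum_const, card_univ, nsmul_eq_mul, Fintype.card_fun, Fintype.card_fin,
              Fintype.card_fin, div_pow]
            push_cast
            field_simp)

/-- exponential moment with two forced agreements -/
lemma sum_pow_agree_two {k m : ℕ} (hm : 1 ≤ m) (φ : Fin k → Fin m) (x : ℝ) (i i' : Fin k)
    (hne : i ≠ i') :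
    ∑ ψ : Fin k → Fin m, (if φ i = ψ i ∧ φ i' = ψ i' then
      x ^ ((univ.filter (fun i => φ i = ψ i)).card - 2) else 0) = ((m : ℝ) - 1 + x) ^ (k - 2) := by
  have h1 : ∀ ψ : Fin k → Fin m, (if φ i = ψ i ∧ φ i' = ψ i' then
      x ^ ((univ.filter (fun i => φ i = ψ i)).card - 2) else 0) =
      ∏ l, (if l = i ∨ l = i' then (if φ l = ψ l then 1 else 0) else
        (if φ l = ψ l then x else 1)) := by
    intro ψ
    rw [← mul_prod_erase univ _ (mem_univ i), if_pos (Or.inl rfl),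
      ← mul_prod_erase (univ.erase i) _ (mem_erase.2 ⟨hne.symm, mem_univ i'⟩), if_pos (Or.inr rfl)]
    have h2 : ∏ l ∈ (univ.erase i).erase i', (if l = i ∨ l = i' then
        (if φ l = ψ l then (1 : ℝ) else 0) else (if φ l = ψ l then x else 1)) =
        x ^ (((univ.erase i).erase i').filter (fun l => φ l = ψ l)).card := by
      have h3 : ∀ l ∈ (univ.erase i).erase i', (if l = i ∨ l = i' then
        (if φ l = ψ l then (1 : ℝ) else 0) else (if φ l = ψ l then x else 1)) =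
        (if φ l = ψ l then x else 1) := by
        intro l hl
        rw [mem_erase, mem_erase] at hl
        rw [if_neg (by tauto)]
      rw [prod_congr rfl h3, prod_ite]
      simp
    rw [h2]
    by_cases ha : φ i = ψ i
    · by_cases hb : φ i' = ψ i'
      · rw [if_pos ⟨ha, hb⟩, if_pos ha, if_pos hb, one_mul, one_mul]
        congr 1
        have h4 : ((univ.erase i).erase i').filter (fun l => φ l = ψ l) =
            ((univ.filter (fun l => φ l = ψ l)).erase i).erase i' := by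
          ext l
          simp only [mem_filter, mem_erase, mem_univ, and_true, true_and]
          tauto
        rw [h4, card_erase_of_mem (by
          rw [mem_erase, mem_filter]
          exact ⟨hne.symm, mem_univ _, hb⟩), card_erase_of_mem (by
          rw [mem_filter]
          exact ⟨mem_univ _, ha⟩)]
        rfl
      · rw [if_neg (fun h => hb h.2), if_neg hb]
        ring
    · rw [if_neg (fun h => ha h.1), if_neg ha]
      ring
  simp_rw [h1]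
  have h2 := Finset.prod_univ_sum (fun _ : Fin k => (univ : Finset (Fin m)))
    (fun l v => if l = i ∨ l = i' then (if φ l = v then (1 : ℝ) else 0) else
        (if φ l = v then x else 1))
  rw [Fintype.piFinset_univ] at h2
  rw [← h2, ← mul_prod_erase univ _ (mem_univ i),
      ← mul_prod_erase (univ.erase i) _ (mem_erase.2 ⟨hne.symm, mem_univ i'⟩)]
  have e1 : ∑ v : Fin m, (if i = i ∨ i = i' then (if φ i = v then (1 : ℝ) else 0) else
        (if φ i = v then x else 1)) = 1 := by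
    simp
  have e2 : ∑ v : Fin m, (if i' = i ∨ i' = i' then (if φ i' = v then (1 : ℝ) else 0) else
        (if φ i' = v then x else 1)) = 1 := by
    simp
  rw [e1, e2, one_mul, one_mul]
  have h3 : ∀ l ∈ (univ.erase i).erase i', ∑ v : Fin m, (if l = i ∨ l = i' then
      (if φ l = v then (1 : ℝ) else 0) else (if φ l = v then x else 1)) = (m : ℝ) - 1 + x := by
    intro l hl
    rw [mem_erase, mem_erase] at hl
    have h5 : ∀ v ∈ (univ : Finset (Fin m)), (if l = i ∨ l = i' then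
      (if φ l = v then (1 : ℝ) else 0) else (if φ l = v then x else 1)) =
      (if φ l = v then x else 1) := by
      intro v _
      rw [if_neg (by tauto)]
    rw [sum_congr rfl h5, ← add_sum_erase univ _ (mem_univ (φ l)), if_pos rfl]
    have h4 : ∑ v ∈ univ.erase (φ l), (if φ l = v then x else 1) = (m : ℝ) - 1 := by
      rw [sum_congr rfl (fun v hv => if_neg (ne_of_mem_erase hv).symm), sum_const,
        card_erase_of_mem (mem_univ _), card_univ, Fintype.card_fin, nsmul_eq_mul,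
        Nat.cast_sub hm]
      simp
    rw [h4]
    ring
  rw [prod_congr rfl h3, prod_const, card_erase_of_mem (mem_erase.2 ⟨hne.symm, mem_univ i'⟩),
    card_erase_of_mem (mem_univ i), card_univ, Fintype.card_fin]
  rfl

end Q299.MBD
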